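import Pool.Agent.Helper33.KD4.WrapDefs

/-! KD project (MP_019250_an), Part IV.8c: transport of the kernel class. -/

namespace KD.IV

open MeasureTheory Set Filter Topology

namespace KERNVaux

variable {d : ℕ}

lemma norm_le_toE (w : Vd d) : ‖w‖ ≤ ‖toE d w‖ := by
  rw [pi_norm_le_iff_of_nonneg (norm_nonneg _)]
  intro i
  exact PiLp.norm_apply_le (toE d w) i

lemma toE_le (w : Vd d) : ‖toE d w‖ ≤ d * ‖w‖ := by
  rw [EuclideanSpace.norm_eq]
  rw [Real.sqrt_le_iff]
  refine ⟨by positivity, ?_⟩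
  calc ∑ i, ‖toE d w i‖ ^ 2 ≤ ∑ _i : Fin d, ‖w‖ ^ 2 :=
        Finset.sum_le_sum (fun i _ => by
          have : ‖toE d w i‖ ≤ ‖w‖ := norm_le_pi_norm w i
          gcongr)
    _ = d * ‖w‖ ^ 2 := by simp
    _ ≤ (d * ‖w‖) ^ 2 := by
        rw [mul_pow]
        have : (d : ℝ) ≤ (d : ℝ) ^ 2 := by exact_mod_cast Nat.le_self_pow two_ne_zero d
        gcongr

lemma toE_ne {w : Vd d} (h : w ≠ 0) : toE d w ≠ 0 := by
  simpa using h

end KERNVaux

open KERNVaux

variable {d : ℕ}

/-- **IV.8c KERNV**: transport of the kernel class. -/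
theorem KERNV_pf (hd : 1 ≤ d) {s lam Lam M0 : ℝ} (hs : 0 < s) (hlam : 0 < lam) (hLam : lam ≤ Lam)
    (hM0 : 0 ≤ M0) : ∃ lam' M0' : ℝ, 0 < lam' ∧ lam' ≤ lam ∧ 0 ≤ M0' ∧
      ∀ K : ℝ → Ed d → Ed d → Ed d → ℝ, KernE s lam Lam M0 K →
        Kern lam' Lam M0' (aV s lam K) := by
  classical
  set p : ℝ := (d : ℝ) + 2 * s with hp
  have hd1 : (1 : ℝ) ≤ d := by exact_mod_cast hd
  have hd0 : (0 : ℝ) < d := by linarith
  have hp0 : 0 < p := by positivity
  have hLam0 : 0 < Lam := by linarith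
  have hdp : 0 < (d : ℝ) ^ (-p) := Real.rpow_pos_of_pos hd0 _
  have hdp1 : (d : ℝ) ^ (-p) ≤ 1 := Real.rpow_le_one_of_one_le_of_nonpos hd1 (by linarith)
  have hl : (d : ℝ) ^ (-p) * lam ≤ lam := by nlinarith
  refine ⟨(d : ℝ) ^ (-p) * lam, M0 + d * Lam, by positivity, hl, by positivity, ?_⟩
  intro K hK
  -- values
  have hval : ∀ t (x v w : Vd d), (t, x, v) ∈ DV d → w ≠ 0 →
      aV s lam K t x v w = ‖w‖ ^ p * K t (toE d x) (toE d v) (toE d v + toE d w) := by
    intro t x v w h1 h2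
    simp only [aV]
    rw [if_pos ⟨h1, h2⟩]
  have hval0 : ∀ t (x v w : Vd d), ¬ ((t, x, v) ∈ DV d ∧ w ≠ 0) → aV s lam K t x v w = lam := by
    intro t x v w h1
    simp only [aV]
    rw [if_neg h1]
  -- the Euclidean normalised kernel
  have hG : ∀ t (x v : Vd d), (t, x, v) ∈ DV d → ∀ u : Ed d, u ≠ 0 →
      lam ≤ ‖u‖ ^ p * K t (toE d x) (toE d v) (toE d v + u) ∧
      ‖u‖ ^ p * K t (toE d x) (toE d v) (toE d v + u) ≤ Lam := by
    intro t x v h u hu
    have h1 := hK.lo (t, toE d x, toE d v) h (toE d v + u) (by simpa using hu)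
    have h2 := hK.hi (t, toE d x, toE d v) h (toE d v + u) (by simpa using hu)
    simp only [add_sub_cancel_left] at h1 h2
    exact ⟨h1, h2⟩
  have hfac : ∀ t (x v w : Vd d), (t, x, v) ∈ DV d → w ≠ 0 →
      aV s lam K t x v w = (‖w‖ / ‖toE d w‖) ^ p *
        (‖toE d w‖ ^ p * K t (toE d x) (toE d v) (toE d v + toE d w)) := by
    intro t x v w h1 h2
    rw [hval t x v w h1 h2, Real.div_rpow (norm_nonneg _) (norm_nonneg _)]
    have : 0 < ‖toE d w‖ ^ p := Real.rpow_pos_of_pos (norm_pos_iff.2 (toE_ne h2)) _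
    field_simp
  have hrat : ∀ w : Vd d, w ≠ 0 → (d : ℝ) ^ (-p) ≤ (‖w‖ / ‖toE d w‖) ^ p ∧
      (‖w‖ / ‖toE d w‖) ^ p ≤ 1 := by
    intro w hw
    have h0 : 0 < ‖w‖ := norm_pos_iff.2 hw
    have h1 : 0 < ‖toE d w‖ := norm_pos_iff.2 (toE_ne hw)
    constructor
    · have h2 : (d : ℝ)⁻¹ ≤ ‖w‖ / ‖toE d w‖ := by
        rw [inv_eq_one_div, div_le_div_iff₀ hd0 h1]
        have := toE_le w
        linarith
      rw [Real.rpow_neg hd0.le, ← Real.inv_rpow hd0.le]
      exact Real.rpow_le_rpow (by positivity) h2 hp0.le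
    · apply Real.rpow_le_one (by positivity) _ hp0.le
      rw [div_le_one h1]
      exact norm_le_toE w
  refine ⟨?_, ?_, ?_, ?_, ?_⟩
  · -- measurability
    intro t x v
    by_cases h : (t, x, v) ∈ DV d
    · have e : aV s lam K t x v = fun w => if w ≠ 0 then
          ‖w‖ ^ p * K t (toE d x) (toE d v) (toE d v + toE d w) else lam := by
        funext w
        by_cases hw : w ≠ 0
        · rw [if_pos hw, hval t x v w h hw]
        · rw [if_neg hw, hval0 t x v w (fun h' => hw h'.2)]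
      rw [e]
      have hm := hK.meas (t, toE d x, toE d v) h
      have hm2 : Measurable (fun w : Vd d => K t (toE d x) (toE d v) (toE d v + toE d w)) := by
        refine hm.comp ?_
        exact (continuous_const.add (toE d).continuous).measurable
      refine Measurable.ite ?_ ?_ measurable_const
      · exact (measurableSet_singleton (0 : Vd d)).compl
      · exact ((measurable_norm).pow_const p).mul hm2
    · have e : aV s lam K t x v = fun _ => lam := by
        funext w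
        exact hval0 t x v w (fun h' => h h'.1)
      rw [e]
      exact measurable_const
  · -- evenness
    intro t x v w
    by_cases h : (t, x, v) ∈ DV d ∧ w ≠ 0
    · rw [hval t x v w h.1 h.2, hval t x v (-w) h.1 (neg_ne_zero.2 h.2), norm_neg, map_neg,
        ← sub_eq_add_neg]
      have := hK.symm (t, toE d x, toE d v) h.1 (toE d w)
      simp only at this
      rw [this]
    · rw [hval0 t x v w h, hval0 t x v (-w) (fun h' => h ⟨h'.1, neg_ne_zero.1 h'.2⟩)]
  · -- lower bound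
    intro t x v w
    by_cases h : (t, x, v) ∈ DV d ∧ w ≠ 0
    · rw [hfac t x v w h.1 h.2]
      exact mul_le_mul (hrat w h.2).1 (hG t x v h.1 _ (toE_ne h.2)).1 hlam.le
        (by positivity)
    · rw [hval0 t x v w h]; exact hl
  · -- upper bound
    intro t x v w
    by_cases h : (t, x, v) ∈ DV d ∧ w ≠ 0
    · rw [hfac t x v w h.1 h.2]
      calc _ ≤ 1 * Lam := mul_le_mul (hrat w h.2).2 (hG t x v h.1 _ (toE_ne h.2)).2
            (hlam.le.trans (hG t x v h.1 _ (toE_ne h.2)).1) zero_le_one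
        _ = Lam := one_mul _
    · rw [hval0 t x v w h]; exact hLam
  · -- bounded variation
    intro t x v w hw1 n
    by_cases h : (t, x, v) ∈ DV d ∧ w ≠ 0
    swap
    · have e : ∀ j : ℕ, aV s lam K t x v ((1 / 2 : ℝ) ^ j • w) = lam := by
        intro j
        apply hval0
        intro h'
        apply h
        refine ⟨h'.1, ?_⟩
        intro h0
        exact h'.2 (by rw [h0, smul_zero])
      simp only [e, sub_self, abs_zero, Finset.sum_const_zero]
      positivity
    obtain ⟨hD, hw0⟩ := h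
    set G : Ed d → ℝ := fun u => ‖u‖ ^ p * K t (toE d x) (toE d v) (toE d v + u) with hGdef
    have hGb : ∀ u, u ≠ 0 → lam ≤ G u ∧ G u ≤ Lam := hG t x v hD
    have hu0 : toE d w ≠ 0 := toE_ne hw0
    have hs0 : ∀ (j : ℕ) (u : Ed d), u ≠ 0 → (1 / 2 : ℝ) ^ j • u ≠ 0 := fun j u hu =>
      smul_ne_zero (by positivity) hu
    have ha : ∀ j : ℕ, aV s lam K t x v ((1 / 2 : ℝ) ^ j • w) =
        (‖w‖ / ‖toE d w‖) ^ p * G ((1 / 2 : ℝ) ^ j • toE d w) := by
      intro j
      have hj : (0 : ℝ) < (1 / 2 : ℝ) ^ j := by positivity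
      rw [hfac t x v _ hD (smul_ne_zero hj.ne' hw0), map_smul]
      congr 2
      rw [norm_smul, norm_smul, mul_div_mul_left _ _ (norm_ne_zero_iff.2 hj.ne')]
    have hterm : ∀ j : ℕ, |aV s lam K t x v ((1 / 2 : ℝ) ^ (j + 1) • w) -
        aV s lam K t x v ((1 / 2 : ℝ) ^ j • w)| ≤
        |G ((1 / 2 : ℝ) ^ (j + 1) • toE d w) - G ((1 / 2 : ℝ) ^ j • toE d w)| := by
      intro j
      rw [ha, ha, ← mul_sub, abs_mul, abs_of_nonneg (by positivity)]
      exact mul_le_of_le_one_left (abs_nonneg _) (hrat w hw0).2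
    refine le_trans (Finset.sum_le_sum (fun j _ => hterm j)) ?_
    have hmono : ∑ j ∈ Finset.range n,
        |G ((1 / 2 : ℝ) ^ (j + 1) • toE d w) - G ((1 / 2 : ℝ) ^ j • toE d w)| ≤
        ∑ j ∈ Finset.range (d + n),
        |G ((1 / 2 : ℝ) ^ (j + 1) • toE d w) - G ((1 / 2 : ℝ) ^ j • toE d w)| := by
      apply Finset.sum_le_sum_of_subset_of_nonneg
      · intro j hj
        rw [Finset.mem_range] at hj ⊢
        omega
      · intro j _ _
        exact abs_nonneg _
    refine le_trans hmono ?_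
    rw [Finset.sum_range_add]
    have h1 : ∑ j ∈ Finset.range d,
        |G ((1 / 2 : ℝ) ^ (j + 1) • toE d w) - G ((1 / 2 : ℝ) ^ j • toE d w)| ≤ d * Lam := by
      have : ∀ j ∈ Finset.range d,
          |G ((1 / 2 : ℝ) ^ (j + 1) • toE d w) - G ((1 / 2 : ℝ) ^ j • toE d w)| ≤ Lam := by
        intro j _
        obtain ⟨a1, a2⟩ := hGb _ (hs0 (j + 1) _ hu0)
        obtain ⟨b1, b2⟩ := hGb _ (hs0 j _ hu0)
        rw [abs_le]
        constructor <;> linarith
      have h2 := Finset.sum_le_sum this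
      simpa using h2
    set u : Ed d := (1 / 2 : ℝ) ^ d • toE d w with hu
    have hun : ‖u‖ ≤ 1 := by
      rw [hu, norm_smul, Real.norm_of_nonneg (by positivity)]
      have h3 : ‖toE d w‖ ≤ d := by
        refine (toE_le w).trans ?_
        nlinarith [norm_nonneg w]
      have h4 : (d : ℝ) ≤ 2 ^ d := by exact_mod_cast (Nat.lt_two_pow_self (n := d)).le
      calc (1 / 2 : ℝ) ^ d * ‖toE d w‖ ≤ (1 / 2 : ℝ) ^ d * 2 ^ d := by
            gcongr
            linarith
        _ = 1 := by rw [← mul_pow]; norm_num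
    have hupos : 0 < ‖u‖ := norm_pos_iff.2 (hs0 d _ hu0)
    have h5 := hK.bv (t, toE d x, toE d v) hD u hupos hun n
    have h6 : ∑ j ∈ Finset.range n,
        |G ((1 / 2 : ℝ) ^ (d + j + 1) • toE d w) - G ((1 / 2 : ℝ) ^ (d + j) • toE d w)| ≤ M0 := by
      refine le_trans (le_of_eq ?_) h5
      apply Finset.sum_congr rfl
      intro j _
      have e1 : (1 / 2 : ℝ) ^ (d + j + 1) • toE d w = (1 / 2 : ℝ) ^ (j + 1) • u := by
        rw [hu, smul_smul, ← pow_add]; congr 2; ring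
      have e2 : (1 / 2 : ℝ) ^ (d + j) • toE d w = (1 / 2 : ℝ) ^ j • u := by
        rw [hu, smul_smul, ← pow_add]; congr 2; ring
      rw [e1, e2]
    linarith

end KD.IV
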