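import Pool.Agent.Helper57.KD4.Cells
import Pool.Agent.Helper37.KD.St.GL
import Pool.Agent.Helper33.KD4.St.Prop

/-! KD project Part IV.6: growth lemma on a tile -/

namespace KD.IV

open MeasureTheory Set Filter Topology KD.III

variable {d : ℕ}

lemma Super.isOpen {s η : ℝ} {a : ℝ → Vd d → Vd d → Vd d → ℝ} {f : ℝ → Vd d → Vd d → ℝ}
    {D : Set (ℝ × Vd d × Vd d)} (h : Super s η a f D) : IsOpen D := by
  obtain ⟨ft, fx, fv, fvv, hR, _⟩ := h.sup
  exact hR.opn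

/-- composition of the base translation with a translated scaling -/
lemma lt_trf (s R tb : ℝ) (xb vb : Vd d) (t : ℝ) (x v : Vd d) (t' : ℝ) (x' v' : Vd d) :
    (tt s R (lt tb xb vb t x v).1 t', tx s R (lt tb xb vb t x v).2.1 (lt tb xb vb t x v).2.2 t' x',
      tv R (lt tb xb vb t x v).2.2 v') =
    lt tb xb vb (t + R ^ (2 * s) * t') (x + R ^ (1 + 2 * s) • x' + (R ^ (2 * s) * t') • v)
      (v + R • v') := by
  unfold lt tt tx tv
  refine Prod.ext ?_ (Prod.ext ?_ ?_)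
  · simp only; ring
  · funext i
    simp only [Pi.add_apply, Pi.smul_apply, smul_eq_mul]
    ring
  · funext i
    simp only [Pi.add_apply, Pi.smul_apply, smul_eq_mul]
    ring

theorem GLt (d : ℕ) (hd : 1 ≤ d) (s lam Lam M0 : ℝ) (hs : 0 < s) (hs1 : s < 1) (hlam : 0 < lam)
    (hLam : lam ≤ Lam) (hM0 : 0 ≤ M0) :
    ∃ δ η0 : ℝ, 0 < δ ∧ δ < 1 ∧ 0 < η0 ∧
      ∀ (a : ℝ → Vd d → Vd d → Vd d → ℝ) (_ : Kern lam Lam M0 a) (f : ℝ → Vd d → Vd d → ℝ)
      (D : Set (ℝ × Vd d × Vd d)) (η : ℝ) (_ : Super s η a f D) (_ : ∀ t x v, 0 ≤ f t x v)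
      (tB α β : ℝ) (_ : 0 < α) (_ : 0 < β) (k : ℕ) (g : Cell d) (cc : ℝ) (_ : 0 < cc)
      (_ : α * tau s k ≤ 2 * (β * rho k) ^ (2 * s)) (_ : (β * rho k) ^ (2 * s) ≤ 2 * (α * tau s k))
      (_ : β * rho k ≤ 1) (_ : η ≤ cc * η0)
      (_ : ∀ (t : ℝ) (x v : Vd d), 0 ≤ t → t ≤ α * tau s k →
        (∀ i, |x i| ≤ α * tau s k * (β * rho k)) → (∀ i, |v i| ≤ β * rho k) →
        lt (bt s tB α k g) (bX s α β k g) (bv β k g) t x v ∈ D)
      (_ : (1 - δ) * vol d s k ≤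
        (({c | ∀ p ∈ RC' tB α β c, cc ≤ f p.1 p.2.1 p.2.2} ∩ Tile s k g).ncard : ℝ)),
      ∀ (t : ℝ) (x v : Vd d), α * tau s k / 4 ≤ t → t ≤ α * tau s k / 2 →
        (∀ i, 3 / 8 * (α * tau s k * (β * rho k)) ≤ x i ∧
          x i ≤ 5 / 8 * (α * tau s k * (β * rho k))) →
        (∀ i, β * rho k / 128 ≤ v i ∧ v i ≤ β * rho k / 64) →
        cc / 2 ≤ f (bt s tB α k g + t) (bX s α β k g + x + t • bv β k g) (bv β k g + v) := by
  classical
  obtain ⟨δ0, η0, hδ0, hη0, hGL⟩ := growth_lemma d hd s lam Lam M0 hs hs1 hlam hLam hM0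
  -- the small scale
  obtain ⟨q2, hq7, hq16⟩ : ∃ q2 : ℕ, 7 ≤ q2 ∧ (((1 / 2 : ℝ) ^ q2) ^ (2 * s)) ≤ 1 / 16 := by
    have h1 : ((1 / 2 : ℝ) ^ (2 * s)) < 1 := Real.rpow_lt_one (by norm_num) (by norm_num) (by linarith)
    have h0 : 0 ≤ ((1 / 2 : ℝ) ^ (2 * s)) := by positivity
    obtain ⟨n, hn⟩ := exists_pow_lt_of_lt_one (show (0 : ℝ) < 1 / 16 by norm_num) h1
    refine ⟨n + 7, by omega, ?_⟩
    have e : (((1 / 2 : ℝ) ^ (n + 7)) ^ (2 * s)) = ((1 / 2 : ℝ) ^ (2 * s)) ^ (n + 7) := by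
      rw [← Real.rpow_natCast, ← Real.rpow_mul (by norm_num), ← Real.rpow_natCast,
        ← Real.rpow_mul (by norm_num), mul_comm]
    rw [e, pow_add]
    calc ((1 / 2 : ℝ) ^ (2 * s)) ^ n * ((1 / 2 : ℝ) ^ (2 * s)) ^ 7 ≤ 1 / 16 * 1 :=
          mul_le_mul hn.le (pow_le_one₀ h0 h1.le) (by positivity) (by norm_num)
      _ = 1 / 16 := by ring
  set ϑ : ℝ := (1 / 2 : ℝ) ^ q2 with hϑ
  have hϑ0 : 0 < ϑ := by positivity
  have hϑ1 : ϑ ≤ 1 / 128 := by
    calc ϑ ≤ (1 / 2 : ℝ) ^ 7 := pow_le_pow_of_le_one (by norm_num) (by norm_num) hq7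
      _ = 1 / 128 := by norm_num
  set Cq : ℝ := 2 / ϑ ^ (2 * s) * (2 / ϑ ^ (1 + 2 * s)) ^ d * (1 / ϑ) ^ d with hCq
  have hϑs : 0 < ϑ ^ (2 * s) := Real.rpow_pos_of_pos hϑ0 _
  have hϑs1 : 0 < ϑ ^ (1 + 2 * s) := Real.rpow_pos_of_pos hϑ0 _
  have hCq0 : 0 < Cq := by positivity
  refine ⟨min (1 / 2) (δ0 / Cq), η0, lt_min (by norm_num) (by positivity),
    lt_of_le_of_lt (min_le_left _ _) (by norm_num), hη0, ?_⟩
  set δ : ℝ := min (1 / 2) (δ0 / Cq) with hδ
  have hδ00 : 0 < δ := lt_min (by norm_num) (by positivity)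
  have hδC : δ * Cq ≤ δ0 := by
    have := min_le_right (1 / 2) (δ0 / Cq)
    rw [← hδ] at this
    rwa [le_div_iff₀ hCq0] at this
  intro a hK f D η hS hf tB α β hα hβ k g cc hcc h1 h2 hr1 hη hD hdens t x v ht0 ht1 hx hv
  set A : ℝ := α * tau s k with hA
  set r : ℝ := β * rho k with hr
  have hτ : (0 : ℝ) < tau s k := by exact_mod_cast tau_pos s k
  have hρ : (0 : ℝ) < rho k := by exact_mod_cast rho_pos k
  have hXr : (0 : ℝ) < XX s k := by exact_mod_cast XX_pos s k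
  have hA0 : 0 < A := by positivity
  have hr0 : 0 < r := by positivity
  have hXXr : (XX s k : ℝ) = tau s k * rho k := by rw [XX_eq]; push_cast; ring
  set R : ℝ := ϑ * r with hR
  have hR0 : 0 < R := by positivity
  have hR1 : R ≤ r / 128 := by
    have := mul_le_mul_of_nonneg_right hϑ1 hr0.le
    linarith
  have hRs : R ^ (2 * s) = ϑ ^ (2 * s) * r ^ (2 * s) := Real.mul_rpow hϑ0.le hr0.le
  have hRs0 : 0 < R ^ (2 * s) := Real.rpow_pos_of_pos hR0 _
  have hrs0 : 0 < r ^ (2 * s) := Real.rpow_pos_of_pos hr0 _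
  have hRs8 : R ^ (2 * s) ≤ A / 8 := by
    rw [hRs]
    calc ϑ ^ (2 * s) * r ^ (2 * s) ≤ 1 / 16 * (2 * A) :=
          mul_le_mul hq16 h2 hrs0.le (by norm_num)
      _ = A / 8 := by ring
  have hR12 : R ^ (1 + 2 * s) = R * R ^ (2 * s) := by rw [Real.rpow_add hR0, Real.rpow_one]
  have hR12p : 0 < R ^ (1 + 2 * s) := Real.rpow_pos_of_pos hR0 _
  set tb := bt s tB α k g with htb
  set xb := bX s α β k g with hxb
  set vb := bv β k g with hvb
  set Good : Set (Cell d) := {c | ∀ p ∈ RC' tB α β c, cc ≤ f p.1 p.2.1 p.2.2} with hGood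
  -- the relative coordinates of a point of Q1
  have hrel : ∀ p ∈ Q1 d,
      (A / 8 ≤ t + R ^ (2 * s) * p.1 ∧ t + R ^ (2 * s) * p.1 ≤ A / 2) ∧
      (∀ i, A * r * (1 / 4) ≤ (x + R ^ (1 + 2 * s) • p.2.1 + (R ^ (2 * s) * p.1) • v) i ∧
        (x + R ^ (1 + 2 * s) • p.2.1 + (R ^ (2 * s) * p.1) • v) i ≤ A * r * (3 / 4)) ∧
      (∀ i, 0 ≤ (v + R • p.2.2) i ∧ (v + R • p.2.2) i < r / 32) := by
    rintro p ⟨p1, p2, p3, p4⟩
    have hp3 : ∀ i, |p.2.1 i| ≤ 1 := fun i => le_trans (norm_le_pi_norm p.2.1 i) p3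
    have hp4 : ∀ i, |p.2.2 i| ≤ 1 := fun i => le_trans (norm_le_pi_norm p.2.2 i) p4
    refine ⟨⟨?_, ?_⟩, fun i => ?_, fun i => ?_⟩
    · have : R ^ (2 * s) * (-1) ≤ R ^ (2 * s) * p.1 := mul_le_mul_of_nonneg_left p1 hRs0.le
      linarith
    · have : R ^ (2 * s) * p.1 ≤ R ^ (2 * s) * 0 := mul_le_mul_of_nonneg_left p2 hRs0.le
      linarith
    · simp only [Pi.add_apply, Pi.smul_apply, smul_eq_mul]
      obtain ⟨x1, x2⟩ := hx i
      obtain ⟨v1, v2⟩ := hv i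
      have hv0 : 0 ≤ v i := le_trans (by positivity) v1
      have b1 : |R ^ (1 + 2 * s) * p.2.1 i| ≤ A / 8 * (r / 128) := by
        rw [abs_mul, abs_of_pos hR12p, hR12]
        calc R * R ^ (2 * s) * |p.2.1 i| ≤ (r / 128) * (A / 8) * 1 := by
              apply mul_le_mul _ (hp3 i) (abs_nonneg _) (by positivity)
              exact mul_le_mul hR1 hRs8 hRs0.le (by positivity)
          _ = _ := by ring
      have b2 : |R ^ (2 * s) * p.1 * v i| ≤ A / 8 * (r / 64) := by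
        rw [abs_mul, abs_mul, abs_of_pos hRs0, abs_of_nonneg hv0]
        have h3 : |p.1| ≤ 1 := by rw [abs_le]; constructor <;> linarith
        calc R ^ (2 * s) * |p.1| * v i ≤ (A / 8) * 1 * (r / 64) := by
              apply mul_le_mul _ v2 hv0 (by positivity)
              exact mul_le_mul hRs8 h3 (abs_nonneg _) (by positivity)
          _ = _ := by ring
      have b1' := abs_le.mp b1
      have b2' := abs_le.mp b2
      have hAr : 0 < A * r := by positivity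
      constructor
      · linarith [b1'.1, b2'.1]
      · linarith [b1'.2, b2'.2]
    · simp only [Pi.add_apply, Pi.smul_apply, smul_eq_mul]
      obtain ⟨v1, v2⟩ := hv i
      have b3 : |R * p.2.2 i| ≤ r / 128 := by
        rw [abs_mul, abs_of_pos hR0]
        calc R * |p.2.2 i| ≤ (r / 128) * 1 :=
              mul_le_mul hR1 (hp4 i) (abs_nonneg _) (by positivity)
          _ = _ := by ring
      have b3' := abs_le.mp b3
      constructor
      · linarith [b3'.1]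
      · linarith [b3'.2]
  -- the base point of the growth lemma
  set z0 := lt tb xb vb t x v with hz0
  set G : ℝ → Vd d → Vd d → ℝ := fun t' x' v' => (1 / cc) * trf s R z0.1 z0.2.1 z0.2.2 f t' x' v'
    with hGdef
  have hGval : ∀ t' x' v', G t' x' v' = (1 / cc) *
      f (lt tb xb vb (t + R ^ (2 * s) * t') (x + R ^ (1 + 2 * s) • x' + (R ^ (2 * s) * t') • v)
      (v + R • v')).1 (lt tb xb vb (t + R ^ (2 * s) * t')
        (x + R ^ (1 + 2 * s) • x' + (R ^ (2 * s) * t') • v) (v + R • v')).2.1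
      (lt tb xb vb (t + R ^ (2 * s) * t')
        (x + R ^ (1 + 2 * s) • x' + (R ^ (2 * s) * t') • v) (v + R • v')).2.2 := by
    intro t' x' v'
    have := lt_trf s R tb xb vb t x v t' x' v'
    rw [← this]
    rfl
  have hKG : Kern lam Lam M0 (tra s R z0.1 z0.2.1 z0.2.2 a) := by
    apply Kern.tra hR0 _ hK
    linarith
  have hSG : Super s η0 (tra s R z0.1 z0.2.1 z0.2.2 a) G (trD s R z0.1 z0.2.1 z0.2.2 D) := by
    have e1 := Super.trf (t0 := z0.1) (x0 := z0.2.1) (v0 := z0.2.2) hR0 hS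
    have e2 := Super.smul (c := 1 / cc) (by positivity) e1
    refine Super.mono ?_ (Super.isOpen e1) (Set.Subset.refl _) e2
    have hRs1 : R ^ (2 * s) ≤ 1 := Real.rpow_le_one hR0.le (by linarith) (by linarith)
    rcases le_or_gt η 0 with h | h
    · have : R ^ (2 * s) * η ≤ 0 := mul_nonpos_of_nonneg_of_nonpos hRs0.le h
      have : 1 / cc * (R ^ (2 * s) * η) ≤ 0 :=
        mul_nonpos_of_nonneg_of_nonpos (by positivity) this
      linarith
    · have h3 : R ^ (2 * s) * η ≤ cc * η0 := by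
        calc R ^ (2 * s) * η ≤ 1 * η := mul_le_mul_of_nonneg_right hRs1 h.le
          _ ≤ cc * η0 := by linarith
      rw [one_div, inv_mul_le_iff₀ hcc]
      exact h3
  have hQD : Q1 d ⊆ trD s R z0.1 z0.2.1 z0.2.2 D := by
    intro p hp
    obtain ⟨⟨a1, a2⟩, a3, a4⟩ := hrel p hp
    change (tt s R z0.1 p.1, tx s R z0.2.1 z0.2.2 p.1 p.2.1, tv R z0.2.2 p.2.2) ∈ D
    rw [lt_trf s R tb xb vb t x v p.1 p.2.1 p.2.2]
    have hAr : 0 < A * r := by positivity
    apply hD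
    · linarith
    · linarith
    · intro i
      rw [abs_le]
      have := a3 i
      constructor <;> linarith [this.1, this.2]
    · intro i
      rw [abs_le]
      have := a4 i
      constructor <;> linarith [this.1, this.2]
  have hG0 : ∀ t' x' v', 0 ≤ G t' x' v' := fun t' x' v' =>
    mul_nonneg (by positivity) (hf _ _ _)
  -- the bad cells
  set B : Finset (Cell d) := (tile_finite s k g).toFinset.filter (fun c => c ∉ Good) with hB
  have hBm : ∀ c, c ∈ B ↔ c ∈ Tile s k g ∧ c ∉ Good := by intro c; simp [hB]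
  have hBcard : (B.card : ℝ) ≤ δ * vol d s k := by
    have e1 : (Tile s k g) = (Good ∩ Tile s k g) ∪ (B : Set (Cell d)) := by
      ext c
      rw [Set.mem_union, Set.mem_inter_iff, Finset.mem_coe, hBm]
      constructor
      · intro h
        by_cases hc : c ∈ Good
        · exact Or.inl ⟨hc, h⟩
        · exact Or.inr ⟨h, hc⟩
      · rintro (h | h)
        · exact h.2
        · exact h.1
    have e2 : Disjoint (Good ∩ Tile s k g) (B : Set (Cell d)) := by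
      rw [Set.disjoint_left]
      intro c hc hc'
      rw [Finset.mem_coe, hBm] at hc'
      exact hc'.2 hc.1
    have e3 : vol d s k = (Good ∩ Tile s k g).ncard + B.card := by
      rw [← tile_ncard s k g]
      conv_lhs => rw [e1]
      rw [Set.ncard_union_eq e2 ((tile_finite s k g).subset Set.inter_subset_right)
        (Finset.finite_toSet _), Set.ncard_coe_finset]
    have e4 : (vol d s k : ℝ) = ((Good ∩ Tile s k g).ncard : ℝ) + B.card := by exact_mod_cast e3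
    linarith
  have hvol : (vol d s k : ℝ) = tau s k * (XX s k : ℝ) ^ d * (rho k : ℝ) ^ d := by
    have := vol_cast d s k
    exact_mod_cast this
  have hcover : ∀ p ∈ Q1 d, G p.1 p.2.1 p.2.2 < 1 → ∃ i : {c // c ∈ B},
      p ∈ KBox ((tB + α * (i.1.1 : ℝ) - z0.1) / R ^ (2 * s))
        (fun j => (α * β * (i.1.2.1 j : ℝ) - z0.2.1 j - (tB + α * (i.1.1 : ℝ) - z0.1) * z0.2.2 j) /
          R ^ (1 + 2 * s))
        (fun j => (β * (i.1.2.2 j : ℝ) - z0.2.2 j) / R)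
        (α / R ^ (2 * s)) (α * β / R ^ (1 + 2 * s)) (β / R) := by
    intro p hp hG1
    obtain ⟨⟨a1, a2⟩, a3, a4⟩ := hrel p hp
    have hAr : α * β * XX s k = A * r := by rw [hXXr, hA, hr]; ring
    obtain ⟨c, hcT, hcR⟩ := core_cover s tB α β hα hβ k g (t + R ^ (2 * s) * p.1)
      (x + R ^ (1 + 2 * s) • p.2.1 + (R ^ (2 * s) * p.1) • v) (v + R • p.2.2)
      (by linarith) (by linarith) (fun i => by rw [hAr]; exact a3 i) (fun i => a4 i)
    have hcB : c ∈ B := by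
      rw [hBm]
      refine ⟨hcT, fun hcG => ?_⟩
      have h3 := hcG _ hcR
      rw [hGval, one_div, inv_mul_lt_iff₀ hcc, mul_one] at hG1
      exact absurd h3 (not_le.mpr hG1)
    refine ⟨⟨c, hcB⟩, ?_⟩
    rw [← htb, ← hxb, ← hvb, ← lt_trf s R tb xb vb t x v p.1 p.2.1 p.2.2] at hcR
    unfold RC' at hcR
    rw [kbox_trf s R z0.1 hR0 z0.2.1 z0.2.2] at hcR
    exact hcR
  have hprod : (Fintype.card {c // c ∈ B} : ℝ) *
      (α / R ^ (2 * s) * (α * β / R ^ (1 + 2 * s)) ^ d * (β / R) ^ d) ≤ δ0 := by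
    rw [Fintype.card_coe]
    have hpos : 0 ≤ α / R ^ (2 * s) * (α * β / R ^ (1 + 2 * s)) ^ d * (β / R) ^ d := by positivity
    have e1 : (vol d s k : ℝ) * (α / R ^ (2 * s) * (α * β / R ^ (1 + 2 * s)) ^ d * (β / R) ^ d) =
        (A / R ^ (2 * s)) * (A * r / R ^ (1 + 2 * s)) ^ d * (r / R) ^ d := by
      rw [hvol, hXXr, hA, hr]
      rw [div_pow, div_pow, div_pow, div_pow]
      rw [mul_pow (α * tau s k : ℝ), mul_pow α, mul_pow α, mul_pow β, mul_pow (tau s k : ℝ)]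
      ring
    have e2 : A / R ^ (2 * s) ≤ 2 / ϑ ^ (2 * s) := by
      rw [hRs, div_le_div_iff₀ (by positivity) hϑs]
      calc A * ϑ ^ (2 * s) ≤ (2 * r ^ (2 * s)) * ϑ ^ (2 * s) :=
            mul_le_mul_of_nonneg_right h1 hϑs.le
        _ = _ := by ring
    have e3 : A * r / R ^ (1 + 2 * s) ≤ 2 / ϑ ^ (1 + 2 * s) := by
      have hϑ12 : ϑ ^ (1 + 2 * s) = ϑ * ϑ ^ (2 * s) := by rw [Real.rpow_add hϑ0, Real.rpow_one]
      rw [hR12, hϑ12, hR, hRs, div_le_div_iff₀ (by positivity) (by positivity)]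
      calc A * r * (ϑ * ϑ ^ (2 * s)) ≤ (2 * r ^ (2 * s)) * r * (ϑ * ϑ ^ (2 * s)) := by
            apply mul_le_mul_of_nonneg_right _ (by positivity)
            exact mul_le_mul_of_nonneg_right h1 hr0.le
        _ = _ := by ring
    have e4 : r / R = 1 / ϑ := by rw [hR]; field_simp
    have e5 : (vol d s k : ℝ) * (α / R ^ (2 * s) * (α * β / R ^ (1 + 2 * s)) ^ d * (β / R) ^ d)
        ≤ Cq := by
      rw [e1, e4, hCq]
      apply mul_le_mul_of_nonneg_right _ (by positivity)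
      exact mul_le_mul e2 (pow_le_pow_left₀ (by positivity) e3 d) (by positivity) (by positivity)
    calc (B.card : ℝ) * (α / R ^ (2 * s) * (α * β / R ^ (1 + 2 * s)) ^ d * (β / R) ^ d)
        ≤ (δ * vol d s k) * (α / R ^ (2 * s) * (α * β / R ^ (1 + 2 * s)) ^ d * (β / R) ^ d) :=
          mul_le_mul_of_nonneg_right hBcard hpos
      _ = δ * ((vol d s k : ℝ) *
          (α / R ^ (2 * s) * (α * β / R ^ (1 + 2 * s)) ^ d * (β / R) ^ d)) := by ring
      _ ≤ δ * Cq := mul_le_mul_of_nonneg_left e5 hδ00.le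
      _ ≤ δ0 := hδC
  have hfin := hGL (tra s R z0.1 z0.2.1 z0.2.2 a) hKG G (trD s R z0.1 z0.2.1 z0.2.2 D) hSG hQD hG0
    {c // c ∈ B} inferInstance _ _ _ (α / R ^ (2 * s)) (α * β / R ^ (1 + 2 * s)) (β / R)
    (by positivity) (by positivity) (by positivity) hprod hcover
  rw [hGval] at hfin
  simp only [mul_zero, add_zero, smul_zero, zero_smul] at hfin
  have h5 : 1 / 2 * cc ≤ 1 / cc * f z0.1 z0.2.1 z0.2.2 * cc :=
    mul_le_mul_of_nonneg_right hfin hcc.le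
  have h6 : 1 / cc * f z0.1 z0.2.1 z0.2.2 * cc = f z0.1 z0.2.1 z0.2.2 := by field_simp
  rw [h6] at h5
  have h7 : f z0.1 z0.2.1 z0.2.2 = f (tb + t) (xb + x + t • vb) (vb + v) := rfl
  rw [h7] at h5
  linarith

end KD.IV
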