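import Pool.Agent.Helper37.KD.Class
import Pool.Agent.Helper57.KD3.St

/-! KD project Part IV.6: real cells of the tiles -/

namespace KD.IV

open MeasureTheory Set Filter Topology KD.III

/-- real cell of the cell `c` (same definition as in the statement file of WH) -/
def RC' {d : ℕ} (tB α β : ℝ) (c : Cell d) : Set (ℝ × Vd d × Vd d) :=
  KBox (tB + α * c.1) (fun i => α * β * c.2.1 i) (fun i => β * c.2.2 i) α (α * β) β

variable {d : ℕ}

/-- base point of the tile with index `g` at level `k` -/
noncomputable def bt (s tB α : ℝ) (k : ℕ) (g : Cell d) : ℝ := tB + α * (tau s k * g.1 : ℤ)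
noncomputable def bX (s α β : ℝ) (k : ℕ) (g : Cell d) : Vd d := fun i => α * β * (XX s k * g.2.1 i : ℤ)
noncomputable def bv (β : ℝ) (k : ℕ) (g : Cell d) : Vd d := fun i => β * (rho k * g.2.2 i : ℤ)

/-- left translate of `(t,x,v)` by the base point `(tb,xb,vb)` -/
def lt (tb : ℝ) (xb vb : Vd d) (t : ℝ) (x v : Vd d) : ℝ × Vd d × Vd d :=
  (tb + t, xb + x + t • vb, vb + v)

lemma XX_ratio (s : ℝ) {k : ℕ} (hk : 5 ≤ k) : 32 * XX s (k - 5) ≤ XX s k := by
  have h1 : tau s (k - 5) ≤ tau s k := tau_mono s (Nat.sub_le _ _)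
  have h2 : rho k = 32 * rho (k - 5) := by
    unfold rho
    have : k = (k - 5) + 5 := by omega
    conv_lhs => rw [this]
    rw [pow_add]; norm_num; ring
  rw [XX_eq, XX_eq, h2]
  have h3 := rho_pos (k - 5)
  have := mul_le_mul_of_nonneg_right h1 (show 0 ≤ 32 * rho (k - 5) by positivity)
  linarith

/-- the core of a tile is covered by the real cells of the tile -/
theorem core_cover (s tB α β : ℝ) (hα : 0 < α) (hβ : 0 < β) (k : ℕ) (g : Cell d)
    (t : ℝ) (x v : Vd d) (ht0 : 0 ≤ t) (ht1 : t < α * tau s k)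
    (hx : ∀ i, α * β * XX s k * (1 / 4) ≤ x i ∧ x i ≤ α * β * XX s k * (3 / 4))
    (hv : ∀ i, 0 ≤ v i ∧ v i < β * rho k / 32) :
    ∃ c ∈ Tile s k g, lt (bt s tB α k g) (bX s α β k g) (bv β k g) t x v ∈ RC' tB α β c := by
  have hαβ : 0 < α * β := mul_pos hα hβ
  set z := lt (bt s tB α k g) (bX s α β k g) (bv β k g) t x v with hz
  have hz1 : z.1 = tB + α * ((tau s k * g.1 : ℤ) : ℝ) + t := rfl
  have hzx : ∀ i, z.2.1 i = α * β * ((XX s k * g.2.1 i : ℤ) : ℝ) + x i +
      t * (β * ((rho k * g.2.2 i : ℤ) : ℝ)) := fun i => rfl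
  have hzv : ∀ i, z.2.2 i = β * ((rho k * g.2.2 i : ℤ) : ℝ) + v i := fun i => rfl
  -- integer parts
  set a : ℤ := ⌊t / α⌋ with ha
  set τ : ℝ := t / α - a with hτ
  have hτ0 : 0 ≤ τ := by rw [hτ]; linarith [Int.floor_le (t / α)]
  have hτ1 : τ < 1 := by rw [hτ]; linarith [Int.lt_floor_add_one (t / α)]
  have ha0 : 0 ≤ a := Int.floor_nonneg.2 (div_nonneg ht0 hα.le)
  have ha1 : a < tau s k := by
    rw [ha, Int.floor_lt]
    rw [div_lt_iff₀ hα]; linarith
  set w : Fin d → ℤ := fun i => ⌊v i / β⌋ with hw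
  have hw0 : ∀ i, 0 ≤ w i := fun i => Int.floor_nonneg.2 (div_nonneg (hv i).1 hβ.le)
  have hwr : ∀ i, (w i : ℝ) < rho k / 32 := by
    intro i
    have h1 : v i / β < rho k / 32 := by
      rw [div_lt_iff₀ hβ]
      have := (hv i).2
      linarith
    exact lt_of_le_of_lt (Int.floor_le _) h1
  set y : Fin d → ℝ := fun i => x i / (α * β) - τ * w i with hy
  set c : Cell d := (tau s k * g.1 + a,
    fun i => XX s k * g.2.1 i + a * (rho k * g.2.2 i) + ⌊y i⌋,
    fun i => rho k * g.2.2 i + w i) with hc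
  have hteq : t = α * (a + τ) := by
    rw [hτ]; field_simp; ring
  refine ⟨c, ?_, ?_⟩
  · -- membership in the tile
    have hX := XX_pos s k
    have hXr : (0 : ℝ) < XX s k := by exact_mod_cast hX
    have hyup : ∀ i, y i ≤ XX s k * (3 / 4) := by
      intro i
      have h1 : x i / (α * β) ≤ XX s k * (3 / 4) := by
        rw [div_le_iff₀ hαβ]
        have := (hx i).2
        linarith
      have h2 : 0 ≤ τ * w i := mul_nonneg hτ0 (by exact_mod_cast hw0 i)
      simp only [hy]; linarith
    have hfl : ∀ i, ⌊y i⌋ < XX s k := by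
      intro i
      rw [Int.floor_lt]
      have := hyup i
      linarith
    have e1 : ∀ i, c.2.1 i - XX s k * g.2.1 i - (c.1 - tau s k * g.1) * (rho k * g.2.2 i) = ⌊y i⌋ := by
      intro i
      simp only [hc]; ring
    have e2 : c.1 - tau s k * g.1 = a := by simp only [hc]; ring
    have e3 : ∀ i, c.2.2 i - rho k * g.2.2 i = w i := by intro i; simp only [hc]; ring
    have hxl : ∀ i, XX s k * (1 / 4) ≤ x i / (α * β) := by
      intro i
      rw [le_div_iff₀ hαβ]
      have := (hx i).1
      linarith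
    rcases Nat.lt_or_ge k 5 with hk | hk
    · -- low levels
      have hw00 : ∀ i, w i = 0 := by
        intro i
        have h1 := hwr i
        have h2 : (rho k : ℝ) ≤ 16 := by
          unfold rho
          push_cast
          calc (2 : ℝ) ^ k ≤ 2 ^ 4 := pow_le_pow_right₀ one_le_two (by omega)
            _ = 16 := by norm_num
        have h3 : (w i : ℝ) < 1 := by linarith
        have h4 : w i < 1 := by exact_mod_cast h3
        have := hw0 i
        omega
      apply tile_core0
      · rw [e2]; exact ha0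
      · rw [e2]; exact ha1
      · intro i; rw [e3, hw00]
      · intro i
        rw [e1]
        apply Int.floor_nonneg.2
        simp only [hy, hw00]
        have := hxl i
        push_cast
        have : 0 ≤ (XX s k : ℝ) * (1 / 4) := by positivity
        linarith
      · intro i; rw [e1]; exact hfl i
    · have hρ5 : rho k = 32 * rho (k - 5) := by
        unfold rho
        have : k = (k - 5) + 5 := by omega
        conv_lhs => rw [this]
        rw [pow_add]; norm_num; ring
      have hw5 : ∀ i, w i < rho (k - 5) := by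
        intro i
        have h1 := hwr i
        rw [hρ5] at h1
        push_cast at h1
        have h2 : (w i : ℝ) < rho (k - 5) := by linarith
        exact_mod_cast h2
      apply tile_core s k 5 hk
      · rw [e2]; exact ha0
      · rw [e2]; exact ha1
      · intro i; rw [e3]; exact hw0 i
      · intro i; rw [e3]; exact hw5 i
      · intro i
        rw [e1]
        apply Int.le_floor.2
        have h1 := hxl i
        have h2 : τ * w i ≤ rho (k - 5) := by
          have h3 : (w i : ℝ) ≤ rho (k - 5) := by exact_mod_cast (hw5 i).le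
          have h4 : (0 : ℝ) ≤ w i := by exact_mod_cast hw0 i
          nlinarith
        have h5 : (32 * XX s (k - 5) : ℝ) ≤ XX s k := by exact_mod_cast XX_ratio s hk
        have h6 : (rho (k - 5) : ℝ) ≤ XX s (k - 5) := by
          have h7 : rho (k - 5) ≤ XX s (k - 5) := by
            rw [XX_eq]
            have := tau_pos s (k - 5)
            have h8 := rho_pos (k - 5)
            nlinarith
          exact_mod_cast h7
        have h7 : (0 : ℝ) < XX s (k - 5) := by exact_mod_cast XX_pos s (k - 5)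
        simp only [hy]
        linarith
      · intro i; rw [e1]; exact hfl i
  · -- membership in the real cell
    unfold RC' KBox
    have g1 : z.1 - (tB + α * (c.1 : ℝ)) = α * τ := by
      rw [hz1, hteq]
      simp only [hc]
      push_cast
      ring
    refine ⟨?_, ?_, ?_, ?_⟩
    · rw [g1]; positivity
    · rw [g1]; nlinarith
    · intro i
      have g2 : z.2.1 i - α * β * (c.2.1 i : ℝ) - (z.1 - (tB + α * (c.1 : ℝ))) * (β * (c.2.2 i : ℝ)) =
          α * β * (y i - ⌊y i⌋) := by
        have hyi : α * β * y i = x i - α * β * (τ * w i) := by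
          simp only [hy]; field_simp
        rw [g1, hzx]
        have hc1 : (c.2.1 i : ℝ) = XX s k * g.2.1 i + a * (rho k * g.2.2 i) + ⌊y i⌋ := by
          simp only [hc]; push_cast; ring
        have hc2 : (c.2.2 i : ℝ) = rho k * g.2.2 i + w i := by
          simp only [hc]; push_cast; ring
        rw [hc1, hc2]
        push_cast
        linear_combination (-1 : ℝ) * hyi + β * ((rho k : ℝ) * g.2.2 i) * hteq
      rw [g2]
      have h1 := Int.floor_le (y i)
      have h2 := (Int.lt_floor_add_one (y i)).le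
      constructor
      · apply mul_nonneg hαβ.le; linarith
      · calc α * β * (y i - ⌊y i⌋) ≤ α * β * 1 :=
              mul_le_mul_of_nonneg_left (by linarith) hαβ.le
          _ = α * β := by ring
    · intro i
      have g3 : z.2.2 i - β * (c.2.2 i : ℝ) = β * (v i / β - w i) := by
        rw [hzv]
        simp only [hc]
        push_cast
        field_simp
        ring
      rw [g3]
      have h1 : (w i : ℝ) ≤ v i / β := Int.floor_le _
      have h2 : v i / β < w i + 1 := Int.lt_floor_add_one _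
      constructor
      · apply mul_nonneg hβ.le; linarith
      · calc β * (v i / β - w i) ≤ β * 1 := mul_le_mul_of_nonneg_left (by linarith) hβ.le
          _ = β := by ring

/-- preimages of kinetic boxes under translation and scaling are kinetic boxes -/
theorem kbox_trf (s r t0 : ℝ) (hr : 0 < r) (x0 v0 : Vd d) (tb : ℝ) (xb vb : Vd d)
    (A X B : ℝ) (t : ℝ) (x v : Vd d) :
    (tt s r t0 t, tx s r x0 v0 t x, tv r v0 v) ∈ KBox tb xb vb A X B ↔
    (t, x, v) ∈ KBox ((tb - t0) / r ^ (2 * s))
      (fun i => (xb i - x0 i - (tb - t0) * v0 i) / r ^ (1 + 2 * s))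
      (fun i => (vb i - v0 i) / r) (A / r ^ (2 * s)) (X / r ^ (1 + 2 * s)) (B / r) := by
  have h2s : 0 < r ^ (2 * s) := Real.rpow_pos_of_pos hr _
  have h12 : r ^ (1 + 2 * s) = r * r ^ (2 * s) := by
    rw [Real.rpow_add hr, Real.rpow_one]
  have h12p : 0 < r ^ (1 + 2 * s) := Real.rpow_pos_of_pos hr _
  have e1 : tt s r t0 t - tb = r ^ (2 * s) * (t - (tb - t0) / r ^ (2 * s)) := by
    unfold tt; field_simp; ring
  have e2 : ∀ i, tv r v0 v i - vb i = r * (v i - (vb i - v0 i) / r) := by
    intro i
    simp only [tv, Pi.add_apply, Pi.smul_apply, smul_eq_mul]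
    field_simp; ring
  have e3 : ∀ i, tx s r x0 v0 t x i - xb i - (tt s r t0 t - tb) * vb i =
      r ^ (1 + 2 * s) * (x i - (xb i - x0 i - (tb - t0) * v0 i) / r ^ (1 + 2 * s) -
        (t - (tb - t0) / r ^ (2 * s)) * ((vb i - v0 i) / r)) := by
    intro i
    simp only [tx, tt, Pi.add_apply, Pi.smul_apply, smul_eq_mul]
    rw [h12]
    field_simp
    ring
  unfold KBox
  simp only [Set.mem_ofPred_eq]
  rw [e1]
  simp only [e2]
  have k1 : ∀ {c y Y : ℝ}, 0 < c → ((0 ≤ c * y ∧ c * y ≤ Y) ↔ (0 ≤ y ∧ y ≤ Y / c)) := by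
    intro c y Y hc
    rw [le_div_iff₀ hc, mul_comm y c]
    constructor
    · rintro ⟨h1, h2⟩
      exact ⟨nonneg_of_mul_nonneg_right h1 hc, h2⟩
    · rintro ⟨h1, h2⟩
      exact ⟨mul_nonneg hc.le h1, h2⟩
  constructor
  · rintro ⟨h1, h2, h3, h4⟩
    obtain ⟨h1', h2'⟩ := (k1 h2s).1 ⟨h1, h2⟩
    refine ⟨h1', h2', fun i => ?_, fun i => (k1 hr).1 (h4 i)⟩
    have h5 := h3 i
    rw [← e1, e3] at h5
    exact (k1 h12p).1 h5
  · rintro ⟨h1, h2, h3, h4⟩
    obtain ⟨h1', h2'⟩ := (k1 h2s).2 ⟨h1, h2⟩
    refine ⟨h1', h2', fun i => ?_, fun i => (k1 hr).2 (h4 i)⟩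
    rw [← e1, e3]
    exact (k1 h12p).2 (h3 i)

end KD.IV
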