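import Pool.Agent.Helper57.KD4.Cells
import Pool.Agent.Helper33.KD4.St.Prop

/-! KD project Part IV.6: from a tile to the stack over its parent -/

namespace KD.IV

open MeasureTheory Set Filter Topology KD.III

variable {d : ℕ}

lemma ek_le_four {s : ℝ} (hs : 0 < s) (hs1 : s < 1) (k : ℕ) : ek s k ≤ 4 := by
  unfold ek
  have h1 : ⌊2 * s * ((k + 1 : ℕ) : ℝ)⌋₊ ≤ ⌊2 * s * (k : ℝ)⌋₊ + 2 := by
    have h2 : ⌊2 * s * ((k + 1 : ℕ) : ℝ)⌋₊ < ⌊2 * s * (k : ℝ)⌋₊ + 3 := by
      rw [Nat.floor_lt (by positivity)]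
      push_cast
      have := Nat.lt_floor_add_one (2 * s * (k : ℝ))
      linarith
    omega
  calc (2 : ℤ) ^ (⌊2 * s * ((k + 1 : ℕ) : ℝ)⌋₊ - ⌊2 * s * (k : ℝ)⌋₊) ≤ 2 ^ 2 :=
        pow_le_pow_right₀ (by norm_num) (by omega)
    _ = 4 := by norm_num

/-- integer position of a cell of the stack relative to a child tile of the base -/
lemma stk_int {s : ℝ} (hs : 0 < s) (hs1 : s < 1) (k q : ℕ) (g c : Cell d)
    (hc : c ∈ Stk s (k + 1) q (par s k g)) :
    (tau s k ≤ c.1 - tau s k * g.1 ∧ c.1 + 1 - tau s k * g.1 ≤ 4 * (q + 1) * tau s k) ∧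
    ∀ i, (-rho k ≤ c.2.2 i - rho k * g.2.2 i ∧ c.2.2 i + 1 - rho k * g.2.2 i ≤ 2 * rho k) ∧
      (-(8 * (q + 2) * XX s k) ≤
        c.2.1 i - XX s k * g.2.1 i - (c.1 - tau s k * g.1) * (rho k * g.2.2 i) ∧
      c.2.1 i + 1 - XX s k * g.2.1 i - (c.1 - tau s k * g.1) * (rho k * g.2.2 i) ≤
        8 * (q + 3) * XX s k) := by
  obtain ⟨⟨t0, t1⟩, hv⟩ := stk_geom s (k + 1) q _ c hc
  have he : 0 < ek s k := ek_pos s k
  have he4 := ek_le_four hs hs1 k
  have hτ := tau_pos s k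
  have hρ := rho_pos k
  have hX := XX_pos s k
  have hXe := XX_eq s k
  have han : ek s k * (g.1 / ek s k) + g.1 % ek s k = g.1 := Int.mul_ediv_add_emod _ _
  have ha0 : 0 ≤ g.1 % ek s k := Int.emod_nonneg _ he.ne'
  have ha1 : g.1 % ek s k < ek s k := Int.emod_lt_of_pos _ he
  have hp1 : (par s k g).1 = g.1 / ek s k := rfl
  rw [hp1, tau_succ] at t0 t1
  set N := g.1 / ek s k with hN
  set a := g.1 % ek s k with had
  have hq0 : (0 : ℤ) ≤ q := by positivity
  -- time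
  have hT0 : tau s k ≤ c.1 - tau s k * g.1 := by
    have h1 : tau s k * (a + 1) ≤ tau s k * ek s k := mul_le_mul_of_nonneg_left ha1 hτ.le
    have h2 : ek s k * tau s k * (N + 1) = tau s k * (ek s k * N) + tau s k * ek s k := by ring
    have h3 : tau s k * g.1 = tau s k * (ek s k * N) + tau s k * a := by rw [← han]; ring
    linarith
  have hT1 : c.1 + 1 - tau s k * g.1 ≤ 4 * (q + 1) * tau s k := by
    have h2 : ek s k * tau s k * (N + 1 + q) =
        tau s k * (ek s k * N) + ek s k * ((q + 1) * tau s k) := by ring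
    have h3 : tau s k * g.1 = tau s k * (ek s k * N) + tau s k * a := by rw [← han]; ring
    have h4 : 0 ≤ tau s k * a := by positivity
    have h5 : ek s k * ((q + 1) * tau s k) ≤ 4 * ((q + 1) * tau s k) :=
      mul_le_mul_of_nonneg_right he4 (by positivity)
    have h6 : c.1 + 1 ≤ ek s k * tau s k * (N + 1 + q) := t1
    linarith
  refine ⟨⟨hT0, hT1⟩, fun i => ?_⟩
  obtain ⟨⟨v0, v1⟩, x0, x1⟩ := hv i
  have hp3 : (par s k g).2.2 i = g.2.2 i / 2 := rfl
  have hp2 : (par s k g).2.1 i = (g.2.1 i - 2 * a * (g.2.2 i / 2)) / (2 * ek s k) := rfl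
  have hc0 : 0 ≤ g.2.2 i % 2 := Int.emod_nonneg _ (by norm_num)
  have hc1 : g.2.2 i % 2 < 2 := Int.emod_lt_of_pos _ (by norm_num)
  have hcn : 2 * (g.2.2 i / 2) + g.2.2 i % 2 = g.2.2 i := Int.mul_ediv_add_emod _ _
  rw [hp3, rho_succ] at v0 v1
  rw [hp1, hp2, hp3, rho_succ, tau_succ, XX_succ] at x0 x1
  set L' := g.2.2 i / 2 with hL'
  set cc := g.2.2 i % 2 with hcc
  have he2 : 0 < 2 * ek s k := by positivity
  have hb0 : 0 ≤ (g.2.1 i - 2 * a * L') % (2 * ek s k) := Int.emod_nonneg _ he2.ne'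
  have hb1 : (g.2.1 i - 2 * a * L') % (2 * ek s k) < 2 * ek s k := Int.emod_lt_of_pos _ he2
  have hbn : 2 * ek s k * ((g.2.1 i - 2 * a * L') / (2 * ek s k)) +
    (g.2.1 i - 2 * a * L') % (2 * ek s k) = g.2.1 i - 2 * a * L' := Int.mul_ediv_add_emod _ _
  set b := (g.2.1 i - 2 * a * L') % (2 * ek s k) with hb
  set M' := (g.2.1 i - 2 * a * L') / (2 * ek s k) with hM'
  have hρc0 : 0 ≤ rho k * cc := mul_nonneg hρ.le hc0
  have hρc1 : rho k * cc ≤ rho k := by
    calc rho k * cc ≤ rho k * 1 := mul_le_mul_of_nonneg_left (by omega) hρ.le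
      _ = rho k := by ring
  have hvl : rho k * g.2.2 i = 2 * rho k * L' + rho k * cc := by rw [← hcn]; ring
  refine ⟨⟨?_, ?_⟩, ?_⟩
  · rw [hvl]; linarith
  · rw [hvl]; linarith
  · have key : c.2.1 i - XX s k * g.2.1 i - (c.1 - tau s k * g.1) * (rho k * g.2.2 i) =
        (c.2.1 i - 2 * ek s k * XX s k * M' - (c.1 - ek s k * tau s k * N) * (2 * rho k * L')) -
        XX s k * b - (c.1 - tau s k * g.1) * (rho k * cc) := by
      have e1 : 2 * ek s k * XX s k * M' = XX s k * (g.2.1 i - 2 * a * L' - b) := by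
        rw [← hbn]; ring
      have e2 : ek s k * tau s k * N = tau s k * g.1 - tau s k * a := by rw [← han]; ring
      rw [e1, e2, hvl, hXe]; ring
    set U := c.2.1 i - 2 * ek s k * XX s k * M' - (c.1 - ek s k * tau s k * N) * (2 * rho k * L')
      with hU
    have hXb0 : 0 ≤ XX s k * b := by positivity
    have hXb1 : XX s k * b ≤ 8 * XX s k := by
      calc XX s k * b ≤ XX s k * 8 := mul_le_mul_of_nonneg_left (by linarith) hX.le
        _ = 8 * XX s k := by ring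
    have hT0' : 0 ≤ c.1 - tau s k * g.1 := by linarith
    have hm0 : 0 ≤ (c.1 - tau s k * g.1) * (rho k * cc) := mul_nonneg hT0' hρc0
    have hm1 : (c.1 - tau s k * g.1) * (rho k * cc) ≤ 4 * (q + 1) * XX s k := by
      calc (c.1 - tau s k * g.1) * (rho k * cc) ≤ (4 * (q + 1) * tau s k) * rho k :=
            mul_le_mul (by linarith) hρc1 hρc0 (by positivity)
        _ = 4 * (q + 1) * XX s k := by rw [hXe]; ring
    have hUe : ((q : ℤ) + 3) * (2 * ek s k * XX s k) ≤ 8 * (q + 3) * XX s k := by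
      calc ((q : ℤ) + 3) * (2 * ek s k * XX s k) = (2 * ((q + 3) * XX s k)) * ek s k := by ring
        _ ≤ (2 * ((q + 3) * XX s k)) * 4 := mul_le_mul_of_nonneg_left he4 (by positivity)
        _ = _ := by ring
    have hqX : 0 ≤ (q : ℤ) * XX s k := by positivity
    rw [key]
    constructor
    · linarith
    · have e3 : c.2.1 i + 1 - XX s k * g.2.1 i - (c.1 - tau s k * g.1) * (rho k * g.2.2 i) =
        (c.2.1 i - XX s k * g.2.1 i - (c.1 - tau s k * g.1) * (rho k * g.2.2 i)) + 1 := by ring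
      rw [e3, key]
      linarith

/-- real position of a point of a cell of the stack relative to a child tile of the base -/
lemma stk_rel {s : ℝ} (hs : 0 < s) (hs1 : s < 1) (tB α β : ℝ) (hα : 0 < α) (hβ : 0 < β)
    (k q : ℕ) (g c : Cell d) (hc : c ∈ Stk s (k + 1) q (par s k g))
    (p : ℝ × Vd d × Vd d) (hp : p ∈ RC' tB α β c) :
    (α * tau s k ≤ p.1 - bt s tB α k g ∧ p.1 - bt s tB α k g ≤ 4 * (q + 1) * (α * tau s k)) ∧
    ∀ i, |p.2.1 i - bX s α β k g i - (p.1 - bt s tB α k g) * bv β k g i| ≤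
        8 * (q + 4) * (α * tau s k * (β * rho k)) ∧
      |p.2.2 i - bv β k g i| ≤ 2 * (β * rho k) := by
  obtain ⟨⟨t0, t1⟩, hv⟩ := stk_int hs hs1 k q g c hc
  obtain ⟨p1, p2, p3, p4⟩ := hp
  have t0r : (tau s k : ℝ) ≤ c.1 - tau s k * g.1 := by exact_mod_cast t0
  have t1r : (c.1 : ℝ) + 1 - tau s k * g.1 ≤ 4 * (q + 1) * tau s k := by exact_mod_cast t1
  have hτ : (0 : ℝ) < tau s k := by exact_mod_cast tau_pos s k
  have hρ : (0 : ℝ) < rho k := by exact_mod_cast rho_pos k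
  have hXr : (0 : ℝ) < XX s k := by exact_mod_cast XX_pos s k
  have hXXr : (XX s k : ℝ) = tau s k * rho k := by rw [XX_eq]; push_cast; ring
  have hbt : bt s tB α k g = tB + α * (tau s k * g.1) := by unfold bt; push_cast; ring
  have hρX : (rho k : ℝ) ≤ XX s k := by
    rw [hXXr]
    have : (1 : ℝ) ≤ tau s k := by exact_mod_cast tau_pos s k
    nlinarith
  set σ : ℝ := (p.1 - (tB + α * c.1)) / α with hσ
  have hσe : p.1 = tB + α * (c.1 + σ) := by rw [hσ]; field_simp; ring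
  have hσ0 : 0 ≤ σ := div_nonneg p1 hα.le
  have hσ1 : σ ≤ 1 := by rw [hσ, div_le_one hα]; exact p2
  have hpt : p.1 - bt s tB α k g = α * (c.1 + σ - tau s k * g.1) := by rw [hbt, hσe]; ring
  refine ⟨⟨?_, ?_⟩, fun i => ?_⟩
  · rw [hpt]; exact mul_le_mul_of_nonneg_left (by linarith) hα.le
  · rw [hpt]
    calc α * (c.1 + σ - tau s k * g.1) ≤ α * (4 * (q + 1) * tau s k) :=
          mul_le_mul_of_nonneg_left (by linarith) hα.le
      _ = _ := by ring
  · obtain ⟨⟨v0, v1⟩, x0, x1⟩ := hv i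
    have v0r : -(rho k : ℝ) ≤ c.2.2 i - rho k * g.2.2 i := by exact_mod_cast v0
    have v1r : (c.2.2 i : ℝ) + 1 - rho k * g.2.2 i ≤ 2 * rho k := by exact_mod_cast v1
    have x0r : -(8 * ((q : ℝ) + 2) * XX s k) ≤
        c.2.1 i - XX s k * g.2.1 i - (c.1 - tau s k * g.1) * (rho k * g.2.2 i) := by
      exact_mod_cast x0
    have x1r : (c.2.1 i : ℝ) + 1 - XX s k * g.2.1 i - (c.1 - tau s k * g.1) * (rho k * g.2.2 i) ≤
        8 * ((q : ℝ) + 3) * XX s k := by
      exact_mod_cast x1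
    obtain ⟨a1, a2⟩ := p3 i
    obtain ⟨b1, b2⟩ := p4 i
    have hbv : bv β k g i = β * (rho k * g.2.2 i) := by unfold bv; push_cast; ring
    have hbX : bX s α β k g i = α * β * (XX s k * g.2.1 i) := by unfold bX; push_cast; ring
    set ω : ℝ := (p.2.2 i - β * c.2.2 i) / β with hω
    have hωe : p.2.2 i = β * (c.2.2 i + ω) := by rw [hω]; field_simp; ring
    have hω0 : 0 ≤ ω := div_nonneg b1 hβ.le
    have hω1 : ω ≤ 1 := by rw [hω, div_le_one hβ]; exact b2
    have hαβ : 0 < α * β := mul_pos hα hβ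
    set ξ : ℝ := (p.2.1 i - α * β * c.2.1 i - (p.1 - (tB + α * c.1)) * (β * c.2.2 i)) / (α * β)
      with hξ
    have hξ0 : 0 ≤ ξ := div_nonneg a1 hαβ.le
    have hξ1 : ξ ≤ 1 := by rw [hξ, div_le_one hαβ]; exact a2
    have hξe : p.2.1 i = α * β * (c.2.1 i + ξ + σ * c.2.2 i) := by
      have : p.2.1 i - α * β * c.2.1 i - (p.1 - (tB + α * c.1)) * (β * c.2.2 i) = α * β * ξ := by
        rw [hξ]; field_simp
      have h2 : p.1 - (tB + α * c.1) = α * σ := by rw [hσ]; field_simp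
      rw [h2] at this
      linarith
    constructor
    · rw [hpt, hbv, hbX, hξe]
      have e : α * β * (c.2.1 i + ξ + σ * c.2.2 i) - α * β * (XX s k * g.2.1 i) -
          α * (c.1 + σ - tau s k * g.1) * (β * (rho k * g.2.2 i)) =
          α * β * ((c.2.1 i - XX s k * g.2.1 i - (c.1 - tau s k * g.1) * (rho k * g.2.2 i)) +
            ξ + σ * (c.2.2 i - rho k * g.2.2 i)) := by ring
      rw [e, abs_mul, abs_of_pos hαβ]
      have hs1' : σ * (c.2.2 i - rho k * g.2.2 i) ≤ 2 * rho k := by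
        calc σ * (c.2.2 i - rho k * g.2.2 i) ≤ σ * (2 * rho k) :=
              mul_le_mul_of_nonneg_left (by linarith) hσ0
          _ ≤ 1 * (2 * rho k) := mul_le_mul_of_nonneg_right hσ1 (by positivity)
          _ = _ := by ring
      have hs0' : -(rho k : ℝ) ≤ σ * (c.2.2 i - rho k * g.2.2 i) := by
        calc -(rho k : ℝ) ≤ σ * (-rho k) := by nlinarith
          _ ≤ _ := mul_le_mul_of_nonneg_left v0r hσ0
      have hq0 : (0 : ℝ) ≤ q := Nat.cast_nonneg q
      have hqX : 0 ≤ (q : ℝ) * XX s k := by positivity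
      have hab : |(c.2.1 i - XX s k * g.2.1 i - (c.1 - tau s k * g.1) * (rho k * g.2.2 i)) +
            ξ + σ * (c.2.2 i - rho k * g.2.2 i)| ≤ 8 * (q + 4) * XX s k := by
        rw [abs_le]
        constructor
        · linarith
        · linarith
      calc α * β * |(c.2.1 i - XX s k * g.2.1 i - (c.1 - tau s k * g.1) * (rho k * g.2.2 i)) +
            ξ + σ * (c.2.2 i - rho k * g.2.2 i)| ≤ α * β * (8 * (q + 4) * XX s k) :=
            mul_le_mul_of_nonneg_left hab hαβ.le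
        _ = _ := by rw [hXXr]; ring
    · rw [hbv, hωe]
      have e : β * (c.2.2 i + ω) - β * (rho k * g.2.2 i) =
          β * (c.2.2 i + ω - rho k * g.2.2 i) := by ring
      rw [e, abs_mul, abs_of_pos hβ]
      have : |(c.2.2 i : ℝ) + ω - rho k * g.2.2 i| ≤ 2 * rho k := by
        rw [abs_le]; constructor <;> linarith
      calc β * |(c.2.2 i : ℝ) + ω - rho k * g.2.2 i| ≤ β * (2 * rho k) :=
            mul_le_mul_of_nonneg_left this hβ.le
        _ = _ := by ring

end KD.IV
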