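import Pool.Agent.Helper57.KD4.Ht

/-! KD project Part IV.6: propagation from the core of a tile to the stack over its parent -/

namespace KD.IV

open MeasureTheory Set Filter Topology KD.III

variable {d : ℕ}

lemma norm_le_of {x : Vd d} {C : ℝ} (hC : 0 ≤ C) (h : ∀ i, |x i| ≤ C) : ‖x‖ ≤ C :=
  (pi_norm_le_iff_of_nonneg hC).2 (fun i => by rw [Real.norm_eq_abs]; exact h i)

lemma abs_le_of_norm {x : Vd d} {C : ℝ} (h : ‖x‖ ≤ C) (i : Fin d) : |x i| ≤ C := by
  rw [← Real.norm_eq_abs]; exact le_trans (norm_le_pi_norm x i) h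

lemma Super.isOpen' {s η : ℝ} {a : ℝ → Vd d → Vd d → Vd d → ℝ} {f : ℝ → Vd d → Vd d → ℝ}
    {D : Set (ℝ × Vd d × Vd d)} (h : Super s η a f D) : IsOpen D := by
  obtain ⟨ft, fx, fv, fvv, hR, _⟩ := h.sup
  exact hR.opn

theorem Ht (d : ℕ) (hd : 1 ≤ d) (s lam Lam : ℝ) (hs : 0 < s) (hs1 : s < 1) (hlam : 0 < lam)
    (hLam : lam ≤ Lam) (q : ℕ) :
    ∃ cP η1 : ℝ, 0 < cP ∧ 0 < η1 ∧
      ∀ (M0 : ℝ) (a : ℝ → Vd d → Vd d → Vd d → ℝ) (_ : Kern lam Lam M0 a)
      (f : ℝ → Vd d → Vd d → ℝ)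
      (D : Set (ℝ × Vd d × Vd d)) (η : ℝ) (_ : Super s η a f D) (_ : ∀ t x v, 0 ≤ f t x v)
      (tB α β : ℝ) (_ : 0 < α) (_ : 0 < β) (k : ℕ) (g : Cell d) (cc : ℝ) (_ : 0 < cc)
      (_ : α * tau s k ≤ 2 * (β * rho k) ^ (2 * s)) (_ : (β * rho k) ^ (2 * s) ≤ 2 * (α * tau s k))
      (_ : β * rho k ≤ 1) (_ : η ≤ cc * η1)
      (_ : ∀ (t : ℝ) (x v : Vd d), 0 ≤ t → t ≤ 8 * (q + 1) → ‖x‖ ≤ 2 + 400 * (q + 1) * (q + 5) →
        ‖v‖ ≤ 50 * (q + 5) + 1 →
        (tt s (β * rho k) (bt s tB α k g) t, tx s (β * rho k) (bX s α β k g) (bv β k g) t x,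
          tv (β * rho k) (bv β k g) v) ∈ D)
      (_ : ∀ (t : ℝ) (x v : Vd d), α * tau s k / 4 ≤ t → t ≤ α * tau s k / 2 →
        (∀ i, 3 / 8 * (α * tau s k * (β * rho k)) ≤ x i ∧
          x i ≤ 5 / 8 * (α * tau s k * (β * rho k))) →
        (∀ i, β * rho k / 128 ≤ v i ∧ v i ≤ β * rho k / 64) →
        cc ≤ f (bt s tB α k g + t) (bX s α β k g + x + t • bv β k g) (bv β k g + v)),
      ∀ c ∈ Stk s (k + 1) q (par s k g), ∀ p ∈ RC' tB α β c, cP * cc ≤ f p.1 p.2.1 p.2.2 := by
  have hq0 : (0 : ℝ) ≤ q := Nat.cast_nonneg q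
  obtain ⟨cP, hcP, η1, hη1, H⟩ := PROP d hd s lam Lam hs hs1 hlam hLam (1 / 256) (1 / 8) (3 / 8)
    (8 * (q + 1)) (50 * (q + 5)) (by norm_num) (by norm_num) (by norm_num) (by linarith)
    (by positivity)
  refine ⟨cP, η1, hcP, hη1, ?_⟩
  intro M0 a hK f D η hS hf tB α β hα hβ k g cc hcc h1 h2 hr1 hη hD hsrc c hc p hp
  obtain ⟨⟨hpt0, hpt1⟩, hpx⟩ := stk_rel hs hs1 tB α β hα hβ k q g c hc p hp
  set A : ℝ := α * tau s k with hA
  set r : ℝ := β * rho k with hr
  set tb := bt s tB α k g with htb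
  set xb := bX s α β k g with hxb
  set vb := bv β k g with hvb
  have hτ : (0 : ℝ) < tau s k := by exact_mod_cast tau_pos s k
  have hρ : (0 : ℝ) < rho k := by exact_mod_cast rho_pos k
  have hA0 : 0 < A := by positivity
  have hr0 : 0 < r := by positivity
  have hrs : 0 < r ^ (2 * s) := Real.rpow_pos_of_pos hr0 _
  have hr12 : r ^ (1 + 2 * s) = r * r ^ (2 * s) := by rw [Real.rpow_add hr0, Real.rpow_one]
  have hr12p : 0 < r ^ (1 + 2 * s) := Real.rpow_pos_of_pos hr0 _
  set Ab : ℝ := A / r ^ (2 * s) with hAb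
  have hAb1 : Ab ≤ 2 := by rw [hAb, div_le_iff₀ hrs]; exact h1
  have hAb2 : 1 / 2 ≤ Ab := by rw [hAb, le_div_iff₀ hrs]; linarith
  have hAbe : r ^ (2 * s) * Ab = A := by rw [hAb]; field_simp
  have hAbe2 : r ^ (1 + 2 * s) * Ab = A * r := by rw [hr12, ← hAbe]; ring
  -- the target in scaled coordinates
  set t1 : ℝ := (p.1 - tb) / r ^ (2 * s) with ht1
  set x1 : Vd d := fun i => (p.2.1 i - xb i - (p.1 - tb) * vb i) / r ^ (1 + 2 * s) with hx1
  set v1 : Vd d := fun i => (p.2.2 i - vb i) / r with hv1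
  have ht1l : Ab ≤ t1 := div_le_div_of_nonneg_right hpt0 hrs.le
  have ht1u : t1 ≤ 4 * (q + 1) * Ab := by
    rw [ht1, hAb, ← mul_div_assoc]
    exact div_le_div_of_nonneg_right hpt1 hrs.le
  have ht1u' : t1 ≤ 8 * (q + 1) := by
    have := mul_le_mul_of_nonneg_left hAb1 (show 0 ≤ 4 * ((q : ℝ) + 1) by positivity)
    linarith
  have hx1n : ‖x1‖ ≤ 16 * (q + 4) := by
    apply norm_le_of (by positivity)
    intro i
    have e1 := (hpx i).1
    rw [hx1]
    simp only
    rw [abs_div, abs_of_pos hr12p, div_le_iff₀ hr12p]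
    refine le_trans e1 ?_
    rw [← hAbe2]
    have h3 := mul_le_mul_of_nonneg_left hAb1 (show 0 ≤ 8 * ((q : ℝ) + 4) * r ^ (1 + 2 * s) by positivity)
    linarith
  have hv1n : ‖v1‖ ≤ 2 := by
    apply norm_le_of (by norm_num)
    intro i
    have e1 := (hpx i).2
    rw [hv1]
    simp only
    rw [abs_div, abs_of_pos hr0, div_le_iff₀ hr0]
    exact e1
  -- the source
  set x0 : Vd d := fun _ => Ab / 2 with hx0
  set v0 : Vd d := fun _ => (3 : ℝ) / 256 with hv0
  have hx0n : ‖x0‖ ≤ 1 := by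
    apply norm_le_of (by norm_num)
    intro i
    simp only [hx0]
    rw [abs_of_nonneg (by linarith)]
    linarith
  have hv0n : ‖v0‖ ≤ 1 := by
    apply norm_le_of (by norm_num)
    intro i
    simp only [hv0]
    rw [abs_of_nonneg (by norm_num)]
    norm_num
  set T : ℝ := t1 - Ab / 4 with hT
  have hT0 : 3 / 8 ≤ T := by rw [hT]; linarith
  have hT1 : T ≤ 8 * (q + 1) := by rw [hT]; linarith
  set u : Vd d := T⁻¹ • (x1 - x0) with hu
  have hun : ‖u‖ ≤ 50 * (q + 5) := by
    rw [hu, norm_smul, Real.norm_of_nonneg (by positivity)]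
    have e1 : ‖x1 - x0‖ ≤ 16 * (q + 4) + 1 := le_trans (norm_sub_le _ _) (by linarith)
    have e2 : T⁻¹ ≤ 8 / 3 := by
      rw [inv_le_comm₀ (by linarith) (by norm_num)]
      norm_num
      linarith
    calc T⁻¹ * ‖x1 - x0‖ ≤ (8 / 3) * (16 * (q + 4) + 1) :=
          mul_le_mul e2 e1 (norm_nonneg _) (by norm_num)
      _ ≤ _ := by linarith
  have hxe : x1 = x0 + (t1 - Ab / 4) • u := by
    rw [hu, smul_smul, ← hT, mul_inv_cancel₀ (by linarith), one_smul]
    abel
  -- the scaled function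
  set F : ℝ → Vd d → Vd d → ℝ := fun t x v => (1 / cc) * trf s r tb xb vb f t x v with hF
  have hKF : Kern lam Lam M0 (tra s r tb xb vb a) := Kern.tra hr0 hr1 hK
  have hSF0 := Super.trf (t0 := tb) (x0 := xb) (v0 := vb) hr0 hS
  have hSF : Super s (1 / cc * (r ^ (2 * s) * η)) (tra s r tb xb vb a) F (trD s r tb xb vb D) :=
    Super.smul (c := 1 / cc) (by positivity) hSF0
  have hηF : 1 / cc * (r ^ (2 * s) * η) ≤ η1 := by
    have hrs1 : r ^ (2 * s) ≤ 1 := Real.rpow_le_one hr0.le hr1 (by linarith)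
    rcases le_or_gt η 0 with h | h
    · have : r ^ (2 * s) * η ≤ 0 := mul_nonpos_of_nonneg_of_nonpos hrs.le h
      have : 1 / cc * (r ^ (2 * s) * η) ≤ 0 :=
        mul_nonpos_of_nonneg_of_nonpos (by positivity) this
      linarith
    · have h3 : r ^ (2 * s) * η ≤ cc * η1 := by
        calc r ^ (2 * s) * η ≤ 1 * η := mul_le_mul_of_nonneg_right hrs1 h.le
          _ ≤ cc * η1 := by linarith
      rw [one_div, inv_mul_le_iff₀ hcc]
      exact h3
  have hF0 : ∀ t x v, 0 ≤ F t x v := fun t x v => mul_nonneg (by positivity) (hf _ _ _)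
  have hfin := H M0 _ (tra s r tb xb vb a) F (trD s r tb xb vb D) hKF hSF hηF hF0
    (Ab / 4) t1 x0 x1 v0 u v1 hT0 hT1 hxe hun (by linarith) (by linarith) ?_ ?_ ?_
  · -- conclusion
    have e1 : tt s r tb t1 = p.1 := by rw [ht1]; unfold tt; field_simp; ring
    have e2 : tx s r xb vb t1 x1 = p.2.1 := by
      funext i
      have e3 : r ^ (2 * s) * t1 = p.1 - tb := by rw [ht1]; field_simp
      simp only [tx, Pi.add_apply, Pi.smul_apply, smul_eq_mul, e3]
      rw [hx1]
      simp only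
      field_simp
      ring
    have e3 : tv r vb v1 = p.2.2 := by
      funext i
      simp only [tv, Pi.add_apply, Pi.smul_apply, smul_eq_mul]
      rw [hv1]
      simp only
      field_simp
      ring
    have e4 : F t1 x1 v1 = 1 / cc * f p.1 p.2.1 p.2.2 := by
      simp only [hF]
      unfold trf
      rw [e1, e2, e3]
    rw [e4] at hfin
    have h5 := mul_le_mul_of_nonneg_right hfin hcc.le
    have h6 : 1 / cc * f p.1 p.2.1 p.2.2 * cc = f p.1 p.2.1 p.2.2 := by field_simp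
    rw [h6] at h5
    exact h5
  · -- source
    intro t x v ht hts hx hv
    have hx' : ∀ i, |x i - (Ab / 2 + (t - Ab / 4) * (3 / 256))| ≤ 1 / 256 := by
      intro i
      have := abs_le_of_norm hx i
      simpa [hx0, hv0] using this
    have hv' : ∀ i, |v i - 3 / 256| ≤ 1 / 256 := by
      intro i
      have := abs_le_of_norm hv i
      simpa [hv0] using this
    have h3 := hsrc (r ^ (2 * s) * t) (r ^ (1 + 2 * s) • x) (r • v) ?_ ?_ ?_ ?_
    · have e4 : F t x v = 1 / cc * f (tb + r ^ (2 * s) * t)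
          (xb + r ^ (1 + 2 * s) • x + (r ^ (2 * s) * t) • vb) (vb + r • v) := rfl
      rw [e4, one_div, le_inv_mul_iff₀ hcc, mul_one]
      exact h3
    · rw [← hAbe]
      have := mul_le_mul_of_nonneg_left ht hrs.le
      linarith
    · rw [← hAbe]
      have : t ≤ Ab / 2 := by linarith
      have := mul_le_mul_of_nonneg_left this hrs.le
      linarith
    · intro i
      have e5 := abs_le.mp (hx' i)
      have e6 : 0 ≤ (t - Ab / 4) * (3 / 256) := mul_nonneg (by linarith) (by norm_num)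
      have e7 : (t - Ab / 4) * (3 / 256) ≤ (1 / 8) * (3 / 256) :=
        mul_le_mul_of_nonneg_right (by linarith) (by norm_num)
      rw [← hAbe2]
      simp only [Pi.smul_apply, smul_eq_mul]
      constructor
      · have : 3 / 8 * Ab ≤ x i := by linarith [e5.1]
        have := mul_le_mul_of_nonneg_left this hr12p.le
        linarith
      · have : x i ≤ 5 / 8 * Ab := by linarith [e5.2]
        have := mul_le_mul_of_nonneg_left this hr12p.le
        linarith
    · intro i
      have e5 := abs_le.mp (hv' i)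
      simp only [Pi.smul_apply, smul_eq_mul]
      constructor
      · have : 1 / 128 ≤ v i := by linarith [e5.1]
        have := mul_le_mul_of_nonneg_left this hr0.le
        linarith
      · have : v i ≤ 1 / 64 := by linarith [e5.2]
        have := mul_le_mul_of_nonneg_left this hr0.le
        linarith
  · -- first tube
    intro t x v ht0 ht1' hx hv
    apply hD t x v (by linarith) (by linarith)
    · have e1 : ‖x0 + (t - Ab / 4) • u‖ ≤ 1 + 8 * (q + 1) * (50 * (q + 5)) := by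
        refine le_trans (norm_add_le _ _) ?_
        rw [norm_smul, Real.norm_of_nonneg (by linarith)]
        have : (t - Ab / 4) * ‖u‖ ≤ 8 * (q + 1) * (50 * (q + 5)) :=
          mul_le_mul (by linarith) hun (norm_nonneg _) (by positivity)
        linarith
      have e2 : ‖x‖ ≤ ‖x - (x0 + (t - Ab / 4) • u)‖ + ‖x0 + (t - Ab / 4) • u‖ := by
        have := norm_add_le (x - (x0 + (t - Ab / 4) • u)) (x0 + (t - Ab / 4) • u)
        rwa [sub_add_cancel] at this
      have e3 : 8 * ((q : ℝ) + 1) * (50 * (q + 5)) = 400 * (q + 1) * (q + 5) := by ring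
      rw [e3] at e1
      linarith
    · have e2 : ‖v‖ ≤ ‖v - u‖ + ‖u‖ := by
        have := norm_add_le (v - u) u
        rwa [sub_add_cancel] at this
      linarith
  · -- second tube
    intro t x v ht0 ht1' hx hv
    apply hD t x v (by linarith) (by linarith)
    · have e1 : ‖x1 + (t - t1) • v1‖ ≤ 16 * (q + 4) + 1 / 8 * 2 := by
        refine le_trans (norm_add_le _ _) ?_
        rw [norm_smul, Real.norm_eq_abs]
        have h3 : |t - t1| ≤ 1 / 8 := by rw [abs_le]; constructor <;> linarith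
        have : |t - t1| * ‖v1‖ ≤ 1 / 8 * 2 :=
          mul_le_mul h3 hv1n (norm_nonneg _) (by norm_num)
        linarith
      have e2 : ‖x‖ ≤ ‖x - (x1 + (t - t1) • v1)‖ + ‖x1 + (t - t1) • v1‖ := by
        have := norm_add_le (x - (x1 + (t - t1) • v1)) (x1 + (t - t1) • v1)
        rwa [sub_add_cancel] at this
      have e3 : 0 ≤ (q : ℝ) * q := by positivity
      have e4 : 400 * ((q : ℝ) + 1) * (q + 5) = 400 * (q * q) + 2400 * q + 2000 := by ring
      rw [e4]
      linarith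
    · have e2 : ‖v‖ ≤ ‖v - v1‖ + ‖v1‖ := by
        have := norm_add_le (v - v1) v1
        rwa [sub_add_cancel] at this
      linarith

end KD.IV
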