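import Pool.Agent.Helper57.KD4.Ht2
import Pool.Agent.Helper57.KD4.GLt

/-! KD project Part IV.6: WH, from half of the cells to a pointwise bound -/

namespace KD.IV

open MeasureTheory Set Filter Topology KD.III

/-- real cell of the cell `c`, grid with base time `tB`, time step `α`, velocity step `β` -/
def RC {d : ℕ} (tB α β : ℝ) (c : Cell d) : Set (ℝ × Vd d × Vd d) :=
  KBox (tB + α * c.1) (fun i => α * β * c.2.1 i) (fun i => β * c.2.2 i) α (α * β) β

variable {d : ℕ}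

lemma tau_bounds {s : ℝ} (hs : 0 < s) (k : ℕ) :
    (tau s k : ℝ) ≤ (2 : ℝ) ^ (2 * s * k) ∧ (2 : ℝ) ^ (2 * s * k) ≤ 2 * tau s k := by
  rw [tau_eq hs.le]
  push_cast
  constructor
  · rw [← Real.rpow_natCast]
    exact Real.rpow_le_rpow_of_exponent_le one_le_two (Nat.floor_le (by positivity))
  · have h1 : 2 * (2 : ℝ) ^ ⌊2 * s * (k : ℝ)⌋₊ = (2 : ℝ) ^ ((⌊2 * s * (k : ℝ)⌋₊ : ℝ) + 1) := by
      rw [Real.rpow_add two_pos, Real.rpow_one, Real.rpow_natCast]; ring
    rw [h1]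
    exact Real.rpow_le_rpow_of_exponent_le one_le_two (Nat.lt_floor_add_one _).le

/-- the scales of the grid -/
lemma grid_ratio {s : ℝ} (hs : 0 < s) {VB : ℝ} (hVB : 0 < VB) {k K : ℕ} :
    VB ^ (2 * s) / tau s K * tau s k ≤ 2 * (VB * (1 / 2) ^ K * rho k) ^ (2 * s) ∧
    (VB * (1 / 2) ^ K * rho k) ^ (2 * s) ≤ 2 * (VB ^ (2 * s) / tau s K * tau s k) := by
  obtain ⟨a1, a2⟩ := tau_bounds hs k
  obtain ⟨b1, b2⟩ := tau_bounds hs K
  have hτk : (0 : ℝ) < tau s k := by exact_mod_cast tau_pos s k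
  have hτK : (0 : ℝ) < tau s K := by exact_mod_cast tau_pos s K
  have hVs : 0 < VB ^ (2 * s) := Real.rpow_pos_of_pos hVB _
  set P : ℝ := (2 : ℝ) ^ (2 * s * k) with hP
  set Q : ℝ := (2 : ℝ) ^ (2 * s * K) with hQ
  have hP0 : 0 < P := Real.rpow_pos_of_pos two_pos _
  have hQ0 : 0 < Q := Real.rpow_pos_of_pos two_pos _
  have e : (VB * (1 / 2) ^ K * rho k) ^ (2 * s) = VB ^ (2 * s) * (P / Q) := by
    have h1 : VB * (1 / 2) ^ K * (rho k : ℝ) = VB * ((2 : ℝ) ^ ((k : ℝ) - K)) := by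
      unfold rho
      push_cast
      rw [Real.rpow_sub two_pos, Real.rpow_natCast, Real.rpow_natCast, div_pow, one_pow]
      ring
    rw [h1, Real.mul_rpow hVB.le (Real.rpow_pos_of_pos two_pos _).le, ← Real.rpow_mul two_pos.le,
      hP, hQ, ← Real.rpow_sub two_pos]
    congr 2
    ring
  rw [e]
  constructor
  · have h2 : (tau s k : ℝ) / tau s K ≤ 2 * (P / Q) := by
      rw [← mul_div_assoc, div_le_div_iff₀ hτK hQ0]
      nlinarith only [hτk, b2, hτK, a1]
    calc VB ^ (2 * s) / tau s K * tau s k = VB ^ (2 * s) * (tau s k / tau s K) := by ring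
      _ ≤ VB ^ (2 * s) * (2 * (P / Q)) := mul_le_mul_of_nonneg_left h2 hVs.le
      _ = _ := by ring
  · have h2 : P / Q ≤ 2 * ((tau s k : ℝ) / tau s K) := by
      rw [← mul_div_assoc, div_le_div_iff₀ hQ0 hτK]
      nlinarith only [hτk, b1, hτK, a2]
    calc VB ^ (2 * s) * (P / Q) ≤ VB ^ (2 * s) * (2 * ((tau s k : ℝ) / tau s K)) :=
          mul_le_mul_of_nonneg_left h2 hVs.le
      _ = _ := by ring

/-- integer position of a tile meeting the big box -/
lemma base_int (s : ℝ) {k K : ℕ} (hk : k ≤ K) (g : Cell d)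
    (h : (Tile s k g ∩ BigBox s K).Nonempty) :
    (0 ≤ tau s k * g.1 ∧ tau s k * g.1 ≤ 2 * tau s K) ∧
    ∀ i, (0 ≤ rho k * g.2.2 i ∧ rho k * g.2.2 i ≤ rho K) ∧
      |XX s k * g.2.1 i| ≤ 4 * XX s K := by
  obtain ⟨c, hc, ⟨b0, b1⟩, bx, bv⟩ := h
  obtain ⟨⟨t0, t1⟩, hv⟩ := tile_geom s k g c hc
  have hτ := tau_pos s k
  have hρ := rho_pos k
  have hX := XX_pos s k
  have hτm := tau_mono s hk
  have hρm := rho_mono hk
  have hXm : XX s k ≤ XX s K := by
    rw [XX_eq, XX_eq]; exact mul_le_mul hτm hρm hρ.le (tau_pos s K).le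
  have hn : 0 ≤ g.1 := by
    by_contra h
    have : tau s k * g.1 ≤ tau s k * (-1) := mul_le_mul_of_nonneg_left (by omega) hτ.le
    linarith
  refine ⟨⟨mul_nonneg hτ.le hn, by linarith⟩, fun i => ?_⟩
  obtain ⟨⟨v0, v1⟩, x0, x1⟩ := hv i
  obtain ⟨z0, z1⟩ := bv i
  obtain ⟨y0, y1⟩ := bx i
  have hl0 : 0 ≤ rho k * g.2.2 i := by
    apply mul_nonneg hρ.le
    by_contra h
    have : rho k * g.2.2 i ≤ rho k * (-1) := mul_le_mul_of_nonneg_left (by omega) hρ.le
    linarith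
  have hl1 : rho k * g.2.2 i ≤ rho K := by linarith
  refine ⟨⟨hl0, hl1⟩, ?_⟩
  have h1 : 0 ≤ (c.1 - tau s k * g.1) * (rho k * g.2.2 i) := mul_nonneg t0 hl0
  have h2 : (c.1 - tau s k * g.1) * (rho k * g.2.2 i) ≤ XX s K := by
    calc (c.1 - tau s k * g.1) * (rho k * g.2.2 i) ≤ tau s K * rho K :=
          mul_le_mul (by linarith) hl1 hl0 (tau_pos s K).le
      _ = XX s K := (XX_eq s K).symm
  rw [abs_le]
  constructor <;> linarith

/-- the base point of a tile meeting the big box is close to `(-1/2,0,0)` -/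
lemma base_real {s : ℝ} {VB : ℝ} (hVB : 0 < VB) {k K : ℕ} (hk : k ≤ K) (g : Cell d)
    (h : (Tile s k g ∩ BigBox s K).Nonempty) :
    (-1 / 2 ≤ bt s (-1 / 2) (VB ^ (2 * s) / tau s K) k g ∧
      bt s (-1 / 2) (VB ^ (2 * s) / tau s K) k g ≤ -1 / 2 + 2 * VB ^ (2 * s)) ∧
    ‖bX s (VB ^ (2 * s) / tau s K) (VB * (1 / 2) ^ K) k g‖ ≤ 4 * (VB ^ (2 * s) * VB) ∧
    ‖bv (VB * (1 / 2) ^ K) k g‖ ≤ VB := by
  obtain ⟨⟨t0, t1⟩, hv⟩ := base_int s hk g h
  have hτK : (0 : ℝ) < tau s K := by exact_mod_cast tau_pos s K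
  have hVs : 0 < VB ^ (2 * s) := Real.rpow_pos_of_pos hVB _
  have hα : 0 < VB ^ (2 * s) / tau s K := by positivity
  have hβ : 0 < VB * (1 / 2 : ℝ) ^ K := by positivity
  have hρK : (1 / 2 : ℝ) ^ K * (rho K : ℝ) = 1 := by
    unfold rho; push_cast; rw [← mul_pow]; norm_num
  have t0r : (0 : ℝ) ≤ ((tau s k * g.1 : ℤ) : ℝ) := by exact_mod_cast t0
  have t1r : ((tau s k * g.1 : ℤ) : ℝ) ≤ 2 * tau s K := by exact_mod_cast t1
  refine ⟨⟨?_, ?_⟩, ?_, ?_⟩
  · unfold bt
    have := mul_nonneg hα.le t0r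
    linarith only [this]
  · unfold bt
    have h1 := mul_le_mul_of_nonneg_left t1r hα.le
    have h2 : VB ^ (2 * s) / tau s K * (2 * tau s K) = 2 * VB ^ (2 * s) := by
      field_simp
    rw [h2] at h1
    linarith only [h1]
  · apply norm_le_of (by positivity)
    intro i
    have h1 : |((XX s k * g.2.1 i : ℤ) : ℝ)| ≤ 4 * XX s K := by
      have := (hv i).2
      exact_mod_cast this
    unfold bX
    rw [abs_mul, abs_of_pos (mul_pos hα hβ)]
    have h2 := mul_le_mul_of_nonneg_left h1 (mul_pos hα hβ).le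
    refine le_trans h2 (le_of_eq ?_)
    have h3 : (XX s K : ℝ) = tau s K * rho K := by rw [XX_eq]; push_cast; ring
    rw [h3]
    calc VB ^ (2 * s) / tau s K * (VB * (1 / 2) ^ K) * (4 * (tau s K * rho K))
        = 4 * (VB ^ (2 * s) * VB) * ((tau s K : ℝ) / tau s K) * ((1 / 2 : ℝ) ^ K * (rho K : ℝ)) := by
          ring
      _ = _ := by rw [hρK, div_self hτK.ne']; ring
  · apply norm_le_of hVB.le
    intro i
    obtain ⟨l0, l1⟩ := (hv i).1
    have l0r : (0 : ℝ) ≤ ((rho k * g.2.2 i : ℤ) : ℝ) := by exact_mod_cast l0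
    have l1r : ((rho k * g.2.2 i : ℤ) : ℝ) ≤ rho K := by exact_mod_cast l1
    unfold bv
    rw [abs_of_nonneg (mul_nonneg hβ.le l0r)]
    calc VB * (1 / 2) ^ K * ((rho k * g.2.2 i : ℤ) : ℝ) ≤ VB * (1 / 2) ^ K * rho K :=
          mul_le_mul_of_nonneg_left l1r hβ.le
      _ = VB := by rw [mul_assoc, hρK, mul_one]

/-- small dyadic numbers -/
lemma exists_small {s : ℝ} (hs : 0 < s) {e : ℝ} (he : 0 < e) :
    ∃ n : ℕ, (1 / 2 : ℝ) ^ n ≤ e ∧ ((1 / 2 : ℝ) ^ n) ^ (2 * s) ≤ e := by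
  have h1 : ((1 / 2 : ℝ) ^ (2 * s)) < 1 :=
    Real.rpow_lt_one (by norm_num) (by norm_num) (by linarith)
  have h0 : 0 ≤ ((1 / 2 : ℝ) ^ (2 * s)) := by positivity
  obtain ⟨n, hn⟩ := exists_pow_lt_of_lt_one he h1
  obtain ⟨m, hm⟩ := exists_pow_lt_of_lt_one he (show (1 / 2 : ℝ) < 1 by norm_num)
  refine ⟨n + m, ?_, ?_⟩
  · rw [pow_add]
    calc (1 / 2 : ℝ) ^ n * (1 / 2) ^ m ≤ 1 * e :=
          mul_le_mul (pow_le_one₀ (by norm_num) (by norm_num)) hm.le (by positivity) (by norm_num)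
      _ = e := by ring
  · have e1 : (((1 / 2 : ℝ) ^ (n + m)) ^ (2 * s)) = ((1 / 2 : ℝ) ^ (2 * s)) ^ (n + m) := by
      rw [← Real.rpow_natCast, ← Real.rpow_mul (by norm_num), ← Real.rpow_natCast,
        ← Real.rpow_mul (by norm_num), mul_comm]
    rw [e1, pow_add]
    calc ((1 / 2 : ℝ) ^ (2 * s)) ^ n * ((1 / 2 : ℝ) ^ (2 * s)) ^ m ≤ e * 1 :=
          mul_le_mul hn.le (pow_le_one₀ h0 h1.le) (by positivity) he.le
      _ = e := by ring

/-- **IV.6 WH**: from half of the cells to a pointwise bound. The grid at fineness `K` has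
`β = 2^{-nB} 2^{-K}`, `α = 2^{-2 s nB} / τ_K`, base time `-1/2`. -/
theorem WH (d : ℕ) (hd : 1 ≤ d) (s lam Lam M0 : ℝ) (hs : 0 < s) (hs1 : s < 1) (hlam : 0 < lam)
    (hLam : lam ≤ Lam) (hM0 : 0 ≤ M0) :
    ∃ (nB L : ℕ) (θ0 η2 r1 : ℝ), 0 < θ0 ∧ 0 < η2 ∧ 0 < r1 ∧ r1 ≤ 1 ∧
      ((1 / 2 : ℝ) ^ nB) ^ (2 * s) ≤ 1 / 2 ∧
      ∀ (a : ℝ → Vd d → Vd d → Vd d → ℝ) (f : ℝ → Vd d → Vd d → ℝ) (D : Set (ℝ × Vd d × Vd d)),
      Kern lam Lam M0 a → Super s η2 a f D → Q1 d ⊆ D → (∀ t x v, 0 ≤ f t x v) →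
      ∀ K, L ≤ K → ((Box s K : Set (Cell d)).ncard : ℝ) / 2 ≤
        (({c : Cell d | ∀ p ∈ RC (-1 / 2) (((1 / 2 : ℝ) ^ nB) ^ (2 * s) / tau s K)
          ((1 / 2 : ℝ) ^ nB * (1 / 2) ^ K) c, 3 / 4 ≤ f p.1 p.2.1 p.2.2} ∩ Box s K).ncard : ℝ) →
      ∀ t x v, -r1 ^ (2 * s) ≤ t → t ≤ 0 → ‖x‖ ≤ r1 ^ (1 + 2 * s) → ‖v‖ ≤ r1 → θ0 ≤ f t x v := by
  obtain ⟨δ, η0, hδ0, hδ1, hη0, hGLt⟩ := GLt d hd s lam Lam M0 hs hs1 hlam hLam hM0
  obtain ⟨q, L, J, hq1, hL1, hJ1, hCOV⟩ := COV d s hs δ hδ0 hδ1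
  obtain ⟨cP, η1, hcP, hη1, hHt⟩ := Ht d hd s lam Lam hs hs1 hlam hLam q
  have hq0 : (0 : ℝ) ≤ q := Nat.cast_nonneg q
  -- smallness of the grid
  set Mq : ℝ := 64 + 400 * (q + 1) * (q + 5) + 50 * (q + 5) with hMq
  have hMq0 : 0 < Mq := by positivity
  obtain ⟨nB, hVBs, hTBs⟩ := exists_small (s := s) hs (e := 1 / (4 * Mq)) (by positivity)
  set VB : ℝ := (1 / 2 : ℝ) ^ nB with hVB
  set TB : ℝ := VB ^ (2 * s) with hTB
  have hVB0 : 0 < VB := by positivity
  have hTB0 : 0 < TB := Real.rpow_pos_of_pos hVB0 _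
  have hVBm : VB * Mq ≤ 1 / 4 := by
    rw [le_div_iff₀ (by positivity)] at hVBs; linarith only [hVBs]
  have hTBm : TB * Mq ≤ 1 / 4 := by
    rw [le_div_iff₀ (by positivity)] at hTBs; linarith
  have hqq : 0 ≤ (q : ℝ) * q := by positivity
  have hMq64 : 64 ≤ Mq := by
    have : 0 ≤ 400 * ((q : ℝ) + 1) * (q + 5) + 50 * (q + 5) := by positivity
    rw [hMq]; linarith
  have hVB64 : VB ≤ 1 / 256 := by
    have := mul_le_mul_of_nonneg_left hMq64 hVB0.le
    linarith only [hVBm, this]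
  have hTB64 : TB ≤ 1 / 256 := by
    have := mul_le_mul_of_nonneg_left hMq64 hTB0.le
    linarith
  -- the target radius
  obtain ⟨n1, hr1a, hr1b⟩ := exists_small (s := s) hs (e := 1 / 8) (by norm_num)
  set r1 : ℝ := (1 / 2 : ℝ) ^ n1 with hr1
  have hr10 : 0 < r1 := by positivity
  have hr12 : r1 ^ (1 + 2 * s) ≤ 1 / 8 := by
    rw [Real.rpow_add hr10, Real.rpow_one]
    have := Real.rpow_pos_of_pos hr10 (2 * s)
    nlinarith only [hVBm, hr1b, hVB0, hVB64, hr1a, this]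
  -- the size of the last tile
  set R1 : ℝ := VB * (1 / 2) ^ L with hR1
  have hR10 : 0 < R1 := by positivity
  have hR1V : R1 ≤ VB := by
    rw [hR1]
    have : (1 / 2 : ℝ) ^ L ≤ 1 := pow_le_one₀ (by norm_num) (by norm_num)
    nlinarith only [hs, hs1, hVB0, this]
  have hR11 : R1 ≤ 1 := by linarith
  set Rs : ℝ := R1 ^ (2 * s) with hRs
  have hRs0 : 0 < Rs := Real.rpow_pos_of_pos hR10 _
  have hRsT : Rs ≤ TB := Real.rpow_le_rpow hR10.le hR1V (by linarith only [hs])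
  obtain ⟨cf, hcf, ηf, hηf, hPROP⟩ := PROP d hd s lam Lam hs hs1 hlam hLam (R1 * Rs / 256) (Rs / 8)
    (1 / 4) (1 / 2) 1 (by positivity) (by positivity) (by linarith) (by norm_num) (by norm_num)
  -- the constants
  set cP' : ℝ := min cP 1 with hcP'
  have hcP'0 : 0 < cP' := lt_min hcP one_pos
  have hcP'1 : cP' ≤ 1 := min_le_right _ _
  have hcP'c : cP' ≤ cP := min_le_left _ _
  set cj : ℕ → ℝ := fun j => 3 / 4 * (cP' / 2) ^ j with hcj
  have hcj0 : ∀ j, 0 < cj j := fun j => by simp only [hcj]; positivity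
  have hcjs : ∀ j, cj (j + 1) = cP' * (cj j / 2) := fun j => by
    simp only [hcj]; rw [pow_succ]; ring
  have hcjm : ∀ j j', j ≤ j' → cj j' ≤ cj j := by
    intro j j' h
    simp only [hcj]
    apply mul_le_mul_of_nonneg_left _ (by norm_num)
    exact pow_le_pow_of_le_one (by positivity) (by linarith) h
  set η2 : ℝ := min (cj J * η0) (min (cj J / 2 * η1) (cj J / 2 * ηf)) with hη2
  have hη20 : 0 < η2 := by
    have := hcj0 J
    exact lt_min (by positivity) (lt_min (by positivity) (by positivity))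
  refine ⟨nB, L, cf * (cj J / 2), η2, r1, mul_pos hcf (half_pos (hcj0 J)), hη20, hr10,
    by linarith, by linarith, ?_⟩
  intro a f D hK hS hQD hf K hLK hhalf t x v ht0 ht1 hx hv
  have hτK : (0 : ℝ) < tau s K := by exact_mod_cast tau_pos s K
  set α : ℝ := TB / tau s K with hα
  set β : ℝ := VB * (1 / 2) ^ K with hβ
  have hα0 : 0 < α := by positivity
  have hβ0 : 0 < β := by positivity
  have hratio : ∀ k, α * tau s k ≤ 2 * (β * rho k) ^ (2 * s) ∧
      (β * rho k) ^ (2 * s) ≤ 2 * (α * tau s k) := fun k => grid_ratio hs hVB0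
  -- size of the tiles
  have hsize : ∀ k, k ≤ K → β * rho k ≤ VB := by
    intro k hk
    have h1 : (rho k : ℝ) ≤ rho K := by exact_mod_cast rho_mono hk
    have h2 : (1 / 2 : ℝ) ^ K * (rho K : ℝ) = 1 := by
      unfold rho; push_cast; rw [← mul_pow]; norm_num
    calc β * rho k ≤ β * rho K := mul_le_mul_of_nonneg_left h1 hβ0.le
      _ = VB := by rw [hβ, mul_assoc, h2, mul_one]
  have hAk : ∀ k, k ≤ K → α * tau s k ≤ TB := by
    intro k hk
    have h1 : (tau s k : ℝ) ≤ tau s K := by exact_mod_cast tau_mono s hk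
    calc α * tau s k ≤ α * tau s K := mul_le_mul_of_nonneg_left h1 hα0.le
      _ = TB := by rw [hα]; field_simp
  have hρp : ∀ k, (0 : ℝ) < rho k := fun k => by exact_mod_cast rho_pos k
  have hτp : ∀ k, (0 : ℝ) < tau s k := fun k => by exact_mod_cast tau_pos s k
  -- domain for GLt
  have hDG : ∀ k, k ≤ K → ∀ g : Cell d, (Tile s k g ∩ BigBox s K).Nonempty →
      ∀ (t : ℝ) (x v : Vd d), 0 ≤ t → t ≤ α * tau s k →
        (∀ i, |x i| ≤ α * tau s k * (β * rho k)) → (∀ i, |v i| ≤ β * rho k) →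
        lt (bt s (-1 / 2) α k g) (bX s α β k g) (bv β k g) t x v ∈ D := by
    intro k hk g hg t x v ht0 ht1 hx hv
    obtain ⟨⟨b0, b1⟩, bx, bv'⟩ := base_real (s := s) hVB0 hk g hg
    have hA := hAk k hk
    have hr := hsize k hk
    have hρk := hρp k
    have hτk := hτp k
    have hx' : ‖x‖ ≤ TB * VB := by
      apply norm_le_of (by positivity)
      intro i
      exact le_trans (hx i) (mul_le_mul hA hr (by positivity) hTB0.le)
    have hv' : ‖v‖ ≤ VB := norm_le_of hVB0.le (fun i => le_trans (hv i) hr)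
    apply hQD
    refine ⟨?_, ?_, ?_, ?_⟩
    · simp only [KD.IV.lt]; linarith only [hVB0, hVB64, ht0, b0]
    · simp only [KD.IV.lt]; linarith only [hVB0, hVB64, hTB64, ht1, b1, hA]
    · simp only [KD.IV.lt]
      refine le_trans (norm_add_le _ _) ?_
      have h1 := norm_add_le (bX s α β k g) x
      have h2 : ‖t • bv β k g‖ ≤ TB * VB := by
        rw [norm_smul, Real.norm_of_nonneg ht0]
        exact mul_le_mul (by linarith only [ht1, hA]) bv' (norm_nonneg _) hTB0.le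
      have h3 : TB * VB ≤ 1 / 256 := by nlinarith
      linarith only [hVB0, hVB64, bx, hx', h1, h2, h3]
    · simp only [KD.IV.lt]
      refine le_trans (norm_add_le _ _) ?_
      linarith only [hVB0, hVB64, bv', hv']
  -- domain for Ht
  have hDH : ∀ k, k ≤ K → ∀ g : Cell d, (Tile s k g ∩ BigBox s K).Nonempty →
      ∀ (t : ℝ) (x v : Vd d), 0 ≤ t → t ≤ 8 * (q + 1) → ‖x‖ ≤ 2 + 400 * (q + 1) * (q + 5) →
        ‖v‖ ≤ 50 * (q + 5) + 1 →
        (tt s (β * rho k) (bt s (-1 / 2) α k g) t, tx s (β * rho k) (bX s α β k g) (bv β k g) t x,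
          tv (β * rho k) (bv β k g) v) ∈ D := by
    intro k hk g hg t x v ht0 ht1 hx hv
    obtain ⟨⟨b0, b1⟩, bx, bv'⟩ := base_real (s := s) hVB0 hk g hg
    have hr := hsize k hk
    have hρk := hρp k
    have hr0 : 0 < β * rho k := by positivity
    set r : ℝ := β * rho k with hrdef
    have hrs0 : 0 < r ^ (2 * s) := Real.rpow_pos_of_pos hr0 _
    have hrsT : r ^ (2 * s) ≤ TB := Real.rpow_le_rpow hr0.le hr (by linarith only [hs])
    have hr12 : r ^ (1 + 2 * s) = r * r ^ (2 * s) := by rw [Real.rpow_add hr0, Real.rpow_one]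
    have hrt : r ^ (2 * s) * t ≤ TB * (8 * (q + 1)) :=
      mul_le_mul hrsT ht1 ht0 hTB0.le
    have hrt0 : 0 ≤ r ^ (2 * s) * t := mul_nonneg hrs0.le ht0
    have hTq : TB * (8 * (q + 1)) ≤ 1 / 4 := by
      have h1 : 8 * ((q : ℝ) + 1) ≤ Mq := by
        rw [hMq]
        have h3 : 400 * ((q : ℝ) + 1) * (q + 5) = 400 * (q * q) + 2400 * q + 2000 := by ring
        rw [h3]; linarith only [hVB0, hqq, hVB64]
      exact le_trans (mul_le_mul_of_nonneg_left h1 hTB0.le) hTBm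
    apply hQD
    refine ⟨?_, ?_, ?_, ?_⟩
    · simp only [tt]; linarith only [hVB0, hVB64, b0, hrt0]
    · simp only [tt]; linarith only [hVB0, hVB64, hTB64, b1, hrt, hTq]
    · simp only [tx]
      refine le_trans (norm_add_le _ _) ?_
      have h1 := norm_add_le (bX s α β k g) (r ^ (1 + 2 * s) • x)
      have h2 : ‖(r ^ (2 * s) * t) • bv β k g‖ ≤ 1 / 4 * VB := by
        rw [norm_smul, Real.norm_of_nonneg hrt0]
        exact mul_le_mul (by linarith only [hrt, hTq]) bv' (norm_nonneg _) (by norm_num)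
      have h4 : ‖r ^ (1 + 2 * s) • x‖ ≤ 1 / 4 := by
        rw [norm_smul, Real.norm_of_nonneg (by positivity), hr12]
        have h5 : r * r ^ (2 * s) ≤ VB := by
          have : r ^ (2 * s) ≤ 1 := by linarith only [hVB0, hVB64, hTB64, hrsT]
          calc r * r ^ (2 * s) ≤ VB * 1 := mul_le_mul hr this hrs0.le hVB0.le
            _ = VB := by ring
        have h6 : ‖x‖ ≤ Mq := by
          rw [hMq]
          have : 0 ≤ 50 * ((q : ℝ) + 5) := by positivity
          linarith only [hVB0, hVB64, hx]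
        calc r * r ^ (2 * s) * ‖x‖ ≤ VB * Mq :=
              mul_le_mul h5 h6 (norm_nonneg _) hVB0.le
          _ ≤ 1 / 4 := hVBm
      have h3 : TB * VB ≤ 1 / 256 := by nlinarith
      linarith only [hVB0, hVB64, bx, h1, h2, h4, h3]
    · simp only [tv]
      refine le_trans (norm_add_le _ _) ?_
      have h4 : ‖r • v‖ ≤ 1 / 4 := by
        rw [norm_smul, Real.norm_of_nonneg hr0.le]
        have h6 : ‖v‖ ≤ Mq := by
          rw [hMq]
          have : 0 ≤ 400 * ((q : ℝ) + 1) * (q + 5) := by positivity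
          linarith only [hVB0, hqq, hVB64, hv]
        calc r * ‖v‖ ≤ VB * Mq := mul_le_mul hr h6 (norm_nonneg _) hVB0.le
          _ ≤ 1 / 4 := hVBm
      linarith only [hVB0, hVB64, bv', h4]
  -- the increasing family of good cells
  set E : ℕ → Set (Cell d) := fun j => {c | ∀ p ∈ RC' (-1 / 2) α β c, cj j ≤ f p.1 p.2.1 p.2.2}
    with hE
  have hEmono : ∀ j, E j ⊆ E (j + 1) := fun j c hc p hp =>
    le_trans (hcjm j (j + 1) (Nat.le_succ j)) (hc p hp)
  have hηj0 : ∀ j ≤ J, η2 ≤ cj j * η0 := by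
    intro j hj
    have h1 : η2 ≤ cj J * η0 := min_le_left _ _
    exact le_trans h1 (mul_le_mul_of_nonneg_right (hcjm j J hj) hη0.le)
  have hηj1 : ∀ j ≤ J, η2 ≤ cj j / 2 * η1 := by
    intro j hj
    have h1 : η2 ≤ cj J / 2 * η1 := le_trans (min_le_right _ _) (min_le_left _ _)
    have h2 := hcjm j J hj
    exact le_trans h1 (mul_le_mul_of_nonneg_right (by linarith only [h2]) hη1.le)
  have hcore : ∀ j ≤ J, ∀ k ≤ K, ∀ g : Cell d, (Tile s k g ∩ BigBox s K).Nonempty →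
      (1 - δ) * vol d s k ≤ ((E j ∩ Tile s k g).ncard : ℝ) →
      ∀ (t : ℝ) (x v : Vd d), α * tau s k / 4 ≤ t → t ≤ α * tau s k / 2 →
        (∀ i, 3 / 8 * (α * tau s k * (β * rho k)) ≤ x i ∧
          x i ≤ 5 / 8 * (α * tau s k * (β * rho k))) →
        (∀ i, β * rho k / 128 ≤ v i ∧ v i ≤ β * rho k / 64) →
        cj j / 2 ≤ f (bt s (-1 / 2) α k g + t) (bX s α β k g + x + t • bv β k g)
          (bv β k g + v) := by
    intro j hj k hk g hg hdens
    exact hGLt a hK f D η2 hS hf (-1 / 2) α β hα0 hβ0 k g (cj j) (hcj0 j) (hratio k).1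
      (hratio k).2 (by linarith only [hVB0, hVB64, hsize, hk, hsize k hk]) (hηj0 j hj) (hDG k hk g hg) hdens
  have hH : ∀ j < J, ∀ k < K - L, ∀ g : Cell d, (Tile s k g ∩ BigBox s K).Nonempty →
      (1 - δ) * vol d s k ≤ ((E j ∩ Tile s k g).ncard : ℝ) →
      Stk s (k + 1) q (par s k g) ⊆ E (j + 1) := by
    intro j hj k hk g hg hdens c hc p hp
    have hkK : k ≤ K := by omega
    have h1 := hHt M0 a hK f D η2 hS hf (-1 / 2) α β hα0 hβ0 k g (cj j / 2)
      (half_pos (hcj0 j)) (hratio k).1 (hratio k).2 (by linarith only [hVB0, hVB64, hsize, hkK, hsize k hkK]) (hηj1 j hj.le)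
      (hDH k hkK g hg) (hcore j hj.le k hkK g hg hdens) c hc p hp
    rw [hcjs]
    refine le_trans (mul_le_mul_of_nonneg_right hcP'c (half_pos (hcj0 j)).le) h1
  have hE0 : ((Box s K : Set (Cell d)).ncard : ℝ) / 2 ≤ ((E 0 ∩ Box s K).ncard : ℝ) := by
    have e : E 0 = {c : Cell d | ∀ p ∈ RC (-1 / 2) (VB ^ (2 * s) / tau s K)
          (VB * (1 / 2) ^ K) c, 3 / 4 ≤ f p.1 p.2.1 p.2.2} := by
      simp only [hE, hcj, pow_zero, mul_one]
      rfl
    rw [e]
    exact hhalf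
  obtain ⟨j, hj, g, hg, hdens⟩ := hCOV K hLK E hEmono hE0 hH
  set k : ℕ := K - L with hk
  have hkK : k ≤ K := Nat.sub_le _ _
  have hco := hcore j hj k hkK g hg hdens
  obtain ⟨⟨b0, b1⟩, bx, bv'⟩ := base_real (s := s) hVB0 hkK g hg
  -- the last tile
  have hrk : β * rho k = R1 := by
    have h2 : (1 / 2 : ℝ) ^ K * (rho k : ℝ) = (1 / 2) ^ L := by
      unfold rho
      push_cast
      have : K = L + k := by omega
      rw [this, pow_add, mul_assoc, ← mul_pow]; norm_num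
    rw [hβ, mul_assoc, h2]
  obtain ⟨hAu, hAl⟩ := hratio k
  set A : ℝ := α * tau s k with hA
  rw [hrk] at hAu hAl hco
  have hA0 : 0 < A := by have := hτp k; positivity
  have hATB : A ≤ TB := hAk k hkK
  have hAl' : Rs ≤ 2 * A := hAl
  have hvb0 := bv'
  set tb := bt s (-1 / 2) α k g with htb
  set xb := bX s α β k g with hxb
  set vb := bv β k g with hvb
  -- source data
  set t0 : ℝ := tb + A / 4 with ht0'
  set V0 : Vd d := fun _ => 3 * R1 / 256 with hV0
  set X0 : Vd d := fun _ => A * R1 / 2 with hX0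
  set x0 : Vd d := xb + X0 + (A / 4) • vb with hx0
  set v0 : Vd d := vb + V0 with hv0
  have hV0n : ‖V0‖ ≤ R1 := by
    apply norm_le_of hR10.le
    intro i
    simp only [hV0]
    rw [abs_of_nonneg (by positivity)]
    linarith only [hR10]
  have hX0n : ‖X0‖ ≤ A * R1 := by
    apply norm_le_of (by positivity)
    intro i
    simp only [hX0]
    rw [abs_of_nonneg (by positivity)]
    have : 0 < A * R1 := by positivity
    linarith only [this]
  have hAR : A * R1 ≤ 1 / 256 := by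
    calc A * R1 ≤ (1 / 256) * 1 := mul_le_mul (by linarith only [hTB64, hATB]) hR11 hR10.le (by norm_num)
      _ = 1 / 256 := by ring
  have hTV : TB * VB ≤ 1 / 256 := by nlinarith
  have hx0n : ‖x0‖ ≤ 1 / 16 := by
    rw [hx0]
    refine le_trans (norm_add_le _ _) ?_
    have h1 := norm_add_le xb X0
    have h2 : ‖(A / 4) • vb‖ ≤ 1 / 256 := by
      rw [norm_smul, Real.norm_of_nonneg (by positivity)]
      calc A / 4 * ‖vb‖ ≤ (1 / 256) * 1 :=
            mul_le_mul (by linarith only [hTB64, hATB]) (by linarith only [hVB64, bv']) (norm_nonneg _) (by norm_num)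
        _ = 1 / 256 := by ring
    linarith only [bx, hX0n, hAR, hTV, h1, h2]
  have hv0n : ‖v0‖ ≤ 1 / 16 := by
    rw [hv0]
    refine le_trans (norm_add_le _ _) ?_
    linarith only [hVB64, hR1V, bv', hV0n]
  have hx1n : ‖x‖ ≤ 1 / 8 := le_trans hx hr12
  set T : ℝ := t - t0 with hT
  have hT0 : 1 / 4 ≤ T := by
    rw [hT, ht0']
    linarith only [hVB0, hVB64, hTB64, hr1b, ht0, hATB, b1]
  have hT1 : T ≤ 1 / 2 := by
    rw [hT, ht0']
    linarith only [hRs0, ht1, hAl, b0]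
  set u : Vd d := T⁻¹ • (x - x0) with hu
  have hun : ‖u‖ ≤ 3 / 4 := by
    rw [hu, norm_smul, Real.norm_of_nonneg (by positivity)]
    have e1 : ‖x - x0‖ ≤ 3 / 16 := le_trans (norm_sub_le _ _) (by linarith only [hr12, hx, hx0n])
    have e2 : T⁻¹ ≤ 4 := by
      rw [inv_le_comm₀ (by linarith only [hVB0, hVB64, hTB64, hr1b, ht0, hATB, b1, ht0']) (by norm_num)]
      norm_num
      linarith only [hVB0, hVB64, hTB64, hr1b, ht0, hATB, b1, ht0']
    calc T⁻¹ * ‖x - x0‖ ≤ 4 * (3 / 16) := mul_le_mul e2 e1 (norm_nonneg _) (by norm_num)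
      _ = _ := by norm_num
  have hxe : x = x0 + (t - t0) • u := by
    rw [hu, smul_smul, ← hT, mul_inv_cancel₀ (by linarith only [hVB0, hVB64, hTB64, hr1b, ht0, hATB, b1, ht0']), one_smul]
    abel
  have hc2 : 0 < cj J / 2 := half_pos (hcj0 J)
  set F : ℝ → Vd d → Vd d → ℝ := fun t x v => (1 / (cj J / 2)) * f t x v with hF
  have hSF : Super s (1 / (cj J / 2) * η2) a F D := Super.smul (c := 1 / (cj J / 2)) (by positivity) hS
  have hηF : 1 / (cj J / 2) * η2 ≤ ηf := by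
    have h1 : η2 ≤ cj J / 2 * ηf := le_trans (min_le_right _ _) (min_le_right _ _)
    rw [one_div, inv_mul_le_iff₀ hc2]
    exact h1
  have hρf : R1 * Rs / 256 ≤ 1 / 256 := by
    have : R1 * Rs ≤ 1 * 1 := mul_le_mul hR11 (by linarith only [hVB0, hVB64, hTB64, hRsT]) hRs0.le (by norm_num)
    linarith only [this]
  have hfin := hPROP M0 _ a F D hK hSF hηF (fun t x v => mul_nonneg (by positivity) (hf t x v))
    t0 t x0 x v0 u v hT0 hT1 hxe (by linarith only [hun]) (by linarith only [hv0n]) (by linarith only [hr1a, hv]) ?_ ?_ ?_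
  · simp only [hF] at hfin
    have h5 := mul_le_mul_of_nonneg_right hfin hc2.le
    have h6 : 1 / (cj J / 2) * f t x v * (cj J / 2) = f t x v := by
      rw [one_div, mul_right_comm, inv_mul_cancel₀ hc2.ne', one_mul]
    rw [h6] at h5
    exact h5
  · -- source
    intro t' x' v' ht' hts' hx' hv'
    have hσ0 : 0 ≤ t' - t0 := by linarith only [ht']
    have hσ1 : t' - t0 ≤ Rs / 8 := by linarith only [hts']
    have h3 := hco (t' - tb) (x' - xb - (t' - tb) • vb) (v' - vb) ?_ ?_ ?_ ?_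
    · have e1 : tb + (t' - tb) = t' := by ring
      have e2 : xb + (x' - xb - (t' - tb) • vb) + (t' - tb) • vb = x' := by abel
      have e3 : vb + (v' - vb) = v' := by abel
      rw [e1, e2, e3] at h3
      simp only [hF]
      rw [one_div, le_inv_mul_iff₀ hc2, mul_one]
      have := hcjm j J hj
      linarith only [h3, this]
    · rw [ht0'] at ht'; linarith only [ht']
    · have : t' - tb ≤ A / 4 + Rs / 8 := by rw [ht0'] at hσ1; linarith only [ht0', hts']
      linarith only [hAl, ht0', hts']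
    · intro i
      have hd1 : (x' - xb - (t' - tb) • vb) i =
          (x' - (x0 + (t' - t0) • v0)) i + A * R1 / 2 + (t' - t0) * (3 * R1 / 256) := by
        rw [hx0, hv0]
        simp only [Pi.sub_apply, Pi.add_apply, Pi.smul_apply, smul_eq_mul, hX0, hV0]
        have : t' - tb = A / 4 + (t' - t0) := by rw [ht0']; ring
        rw [this]; ring
      have hd2 := abs_le.mp (abs_le_of_norm hx' i)
      have h4 : 0 ≤ (t' - t0) * (3 * R1 / 256) := by positivity
      have h5 : (t' - t0) * (3 * R1 / 256) ≤ (A / 4) * (3 * R1 / 256) :=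
        mul_le_mul_of_nonneg_right (by linarith only [hAl, hts']) (by positivity)
      have h6 : R1 * Rs ≤ R1 * (2 * A) := mul_le_mul_of_nonneg_left hAl' hR10.le
      have h7 : 0 < A * R1 := by positivity
      rw [hd1]
      constructor
      · linarith only [hd2, h4, h6, hd2.1]
      · linarith only [hd2, h5, h6, hd2.2]
    · intro i
      have hd1 : (v' - vb) i = (v' - v0) i + 3 * R1 / 256 := by
        rw [hv0]
        simp only [Pi.sub_apply, Pi.add_apply, hV0]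
        ring
      have hd2 := abs_le.mp (abs_le_of_norm hv' i)
      have h6 : R1 * Rs ≤ R1 * 1 := mul_le_mul_of_nonneg_left (by linarith only [hVB0, hVB64, hTB64, hRsT]) hR10.le
      rw [hd1]
      constructor
      · linarith only [hd2, h6, hd2.1]
      · linarith only [hd2, h6, hd2.2]
  · -- first tube
    intro t' x' v' ht' ht1' hx' hv'
    apply hQD
    refine ⟨?_, ?_, ?_, ?_⟩
    · simp only; rw [ht0'] at ht'; linarith only [hVB0, hVB64, hRs0, hAl, b0, ht']
    · simp only; linarith only [ht1, ht1']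
    · have e2 : ‖x'‖ ≤ ‖x' - (x0 + (t' - t0) • u)‖ + ‖x0 + (t' - t0) • u‖ := by
        have := norm_add_le (x' - (x0 + (t' - t0) • u)) (x0 + (t' - t0) • u)
        rwa [sub_add_cancel] at this
      have e1 : ‖x0 + (t' - t0) • u‖ ≤ 1 / 16 + 1 / 2 * (3 / 4) := by
        refine le_trans (norm_add_le _ _) ?_
        rw [norm_smul, Real.norm_of_nonneg (by linarith only [ht'])]
        have : (t' - t0) * ‖u‖ ≤ 1 / 2 * (3 / 4) :=
          mul_le_mul (by linarith only [hRs0, ht1, hAl, b0, ht0', ht1']) hun (norm_nonneg _) (by norm_num)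
        linarith only [hx0n, this]
      simp only
      linarith only [hρf, hx', e2, e1]
    · have e2 : ‖v'‖ ≤ ‖v' - u‖ + ‖u‖ := by
        have := norm_add_le (v' - u) u
        rwa [sub_add_cancel] at this
      simp only
      linarith only [hun, hρf, hv', e2]
  · -- second tube
    intro t' x' v' ht' ht1' hx' hv'
    apply hQD
    refine ⟨?_, ?_, ?_, ?_⟩
    · simp only
      linarith only [hVB0, hVB64, hTB64, hr1b, hRsT, ht0, ht']
    · simp only; linarith only [ht1, ht1']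
    · have e2 : ‖x'‖ ≤ ‖x' - (x + (t' - t) • v)‖ + ‖x + (t' - t) • v‖ := by
        have := norm_add_le (x' - (x + (t' - t) • v)) (x + (t' - t) • v)
        rwa [sub_add_cancel] at this
      have e1 : ‖x + (t' - t) • v‖ ≤ 1 / 8 + 1 / 4 * (1 / 8) := by
        refine le_trans (norm_add_le _ _) ?_
        rw [norm_smul, Real.norm_eq_abs]
        have h3 : |t' - t| ≤ 1 / 4 := by rw [abs_le]; constructor <;> linarith only [hVB0, hVB64, hTB64, hRsT, ht', ht1']
        have : |t' - t| * ‖v‖ ≤ 1 / 4 * (1 / 8) :=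
          mul_le_mul h3 (by linarith only [hr1a, hv]) (norm_nonneg _) (by norm_num)
        linarith only [hr12, hx, this]
      simp only
      linarith only [hρf, hx', e2, e1]
    · have e2 : ‖v'‖ ≤ ‖v' - v‖ + ‖v‖ := by
        have := norm_add_le (v' - v) v
        rwa [sub_add_cancel] at this
      simp only
      linarith only [hr1a, hv, hρf, hv', e2]

end KD.IV
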